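import Mathlib
import Pool.Agent.H547R3.Osc

set_option autoImplicit false

/-!
The maps `x/2` (`x` even), `(a x + b)/2` (`x` odd) on the integers: basic facts.
-/

namespace Pool.Agent.TH926.OSG

open Finset

/-- The map `T_{a,b}`. -/
def T (a b x : ℤ) : ℤ := if x % 2 = 0 then x / 2 else (a * x + b) / 2

/-- number of odd terms among the first `k` terms of the orbit of `x` -/
def od (a b : ℤ) (k : ℕ) (x : ℤ) : ℕ := ((range k).filter fun i => ((T a b)^[i] x) % 2 = 1).card

/-- the parameters -/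
structure Par (a b : ℤ) : Prop where
  ha : a % 2 = 1
  ha3 : 3 ≤ a
  hb : b % 2 = 1

variable {a b : ℤ}

theorem par (x : ℤ) : x % 2 = 0 ∨ x % 2 = 1 := by omega

theorem T_even {x : ℤ} (h : x % 2 = 0) : 2 * T a b x = x := by
  unfold T; rw [if_pos h]; omega

theorem T_odd (H : Par a b) {x : ℤ} (h : x % 2 = 1) : 2 * T a b x = a * x + b := by
  unfold T; rw [if_neg (by omega)]
  have h1 : (a * x + b) % 2 = 0 := by
    have h2 := H.ha
    have h3 := H.hb
    rw [Int.add_emod, Int.mul_emod, h2, h, h3]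
    norm_num
  omega

theorem od_succ_even {k : ℕ} {x : ℤ} (h : ((T a b)^[k] x) % 2 = 0) : od a b (k + 1) x = od a b k x := by
  unfold od
  rw [range_add_one, filter_insert, if_neg (by omega)]

theorem od_succ_odd {k : ℕ} {x : ℤ} (h : ((T a b)^[k] x) % 2 = 1) :
    od a b (k + 1) x = od a b k x + 1 := by
  unfold od
  rw [range_add_one, filter_insert, if_pos h, card_insert_of_notMem]
  simp

theorem od_le (k : ℕ) (x : ℤ) : od a b k x ≤ k := by
  unfold od
  exact (card_filter_le _ _).trans (by simp)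

/-- two integers with the same first `k` parities are congruent modulo `2 ^ k` -/
theorem same_par (H : Par a b) (k : ℕ) : ∀ (x y : ℤ),
    (∀ i < k, ((T a b)^[i] x) % 2 = ((T a b)^[i] y) % 2) → (2 : ℤ) ^ k ∣ x - y := by
  induction k with
  | zero => intro x y _; simp
  | succ k ih =>
    intro x y h
    have h0 : x % 2 = y % 2 := by simpa using h 0 (by omega)
    have h1 := ih (T a b x) (T a b y) (fun i hi => by
      have := h (i + 1) (by omega)
      simpa [Function.iterate_succ_apply] using this)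
    obtain ⟨c, hc⟩ := h1
    rcases par x with hx | hx
    · have a1 := T_even (a := a) (b := b) hx
      have a2 := T_even (a := a) (b := b) (h0 ▸ hx)
      refine ⟨c, ?_⟩
      rw [pow_succ]
      linear_combination (-1 : ℤ) * a1 + a2 + 2 * hc
    · have a1 := T_odd H hx
      have a2 := T_odd H (h0 ▸ hx)
      have h3 : (2 : ℤ) ^ (k + 1) ∣ a * (x - y) := ⟨c, by
        rw [pow_succ]; linear_combination (-1 : ℤ) * a1 + a2 + 2 * hc⟩
      have hcop : IsCoprime ((2 : ℤ) ^ (k + 1)) a := by
        apply IsCoprime.pow_left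
        refine ⟨-(a / 2), 1, ?_⟩
        have := H.ha
        omega
      exact hcop.dvd_of_dvd_mul_left h3

/-- the constant of the linearisation -/
noncomputable def cc (a b : ℤ) : ℝ := (a : ℝ) * (b : ℝ) ^ 2

theorem Par.a_ge (H : Par a b) : (3 : ℝ) ≤ a := by exact_mod_cast H.ha3

theorem Par.b_ge (H : Par a b) : (1 : ℝ) ≤ |(b : ℝ)| := by
  have h1 : b ≠ 0 := by rintro rfl; have := H.hb; simp at this
  have : (1 : ℤ) ≤ |b| := Int.one_le_abs h1
  exact_mod_cast this

theorem Par.b_le (H : Par a b) : |(b : ℝ)| ≤ cc a b := by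
  have h1 := H.a_ge
  have h2 := H.b_ge
  unfold cc
  rw [← sq_abs (b : ℝ)]
  nlinarith [mul_self_nonneg (|(b : ℝ)| - 1)]

theorem Par.cc_ge (H : Par a b) : 1 ≤ cc a b := H.b_ge.trans H.b_le

theorem Par.log_pos (H : Par a b) : 1 < Real.log a := by
  have h1 := Real.log_le_log (by norm_num : (0 : ℝ) < 3) H.a_ge
  have h2 := Pool.Agent.H319R2.log3_gt_one
  linarith

theorem log_step (H : Par a b) {y : ℤ} (hy : y ≠ 0) (hz : a * y + b ≠ 0) :
    |Real.log |(a : ℝ) * (y : ℝ) + b| - Real.log |(y : ℝ)| - Real.log a| ≤ cc a b * (1 / |(y : ℝ)|) := by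
  have hA := H.a_ge
  have hB := H.b_ge
  have hy1 : (1 : ℝ) ≤ |(y : ℝ)| := by
    have : (1 : ℤ) ≤ |y| := Int.one_le_abs hy
    exact_mod_cast this
  have hs1 : (1 : ℝ) ≤ |(a : ℝ) * (y : ℝ) + b| := by
    have : (1 : ℤ) ≤ |a * y + b| := Int.one_le_abs hz
    exact_mod_cast this
  have hA0 : (0 : ℝ) < a := by linarith
  have hy0 : 0 < |(y : ℝ)| := by linarith
  have hlow : (a : ℝ) * |(y : ℝ)| - |(b : ℝ)| ≤ |(a : ℝ) * (y : ℝ) + b| := by
    have := abs_sub_abs_le_abs_sub ((a : ℝ) * (y : ℝ)) (-b)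
    rw [abs_mul, abs_neg, sub_neg_eq_add, abs_of_pos hA0] at this
    exact this
  have hup : |(a : ℝ) * (y : ℝ) + b| ≤ a * |(y : ℝ)| + |(b : ℝ)| := by
    refine (abs_add_le _ _).trans ?_
    rw [abs_mul, abs_of_pos hA0]
  have hcc : cc a b = (a : ℝ) * |(b : ℝ)| ^ 2 := by unfold cc; rw [sq_abs]
  rw [hcc]
  set t := |(y : ℝ)| with ht
  set s := |(a : ℝ) * (y : ℝ) + b| with hs
  set β := |(b : ℝ)| with hβ
  set A : ℝ := (a : ℝ) with hAdef
  have hs0 : 0 < s := by linarith
  have hβ0 : 0 < β := by linarith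
  have e : Real.log s - Real.log t - Real.log A = Real.log (s / (A * t)) := by
    rw [Real.log_div hs0.ne' (by positivity), Real.log_mul hA0.ne' hy0.ne']
    ring
  rw [e, abs_le]
  constructor
  · have h1 : Real.log (A * t / s) ≤ A * t / s - 1 := Real.log_le_sub_one_of_pos (by positivity)
    have h2 : Real.log (s / (A * t)) = - Real.log (A * t / s) := by
      rw [← Real.log_inv, inv_div]
    have h3 : A * t / s - 1 ≤ A * β ^ 2 * (1 / t) := by
      rw [div_sub_one hs0.ne', mul_one_div, div_le_div_iff₀ hs0 hy0]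
      -- (A t - s) t ≤ A β² s
      have h4 : A * t - s ≤ β := by linarith
      have h5 : t ≤ A * β * s := by
        have h6 : A * t ≤ 2 * β * s := by nlinarith
        have h7 : 2 * β * s ≤ A * (A * β * s) := by
          have h8 : 0 < β * s := by positivity
          have h9 : (2 : ℝ) ≤ A * A := by nlinarith
          calc 2 * β * s = 2 * (β * s) := by ring
            _ ≤ A * A * (β * s) := mul_le_mul_of_nonneg_right h9 h8.le
            _ = A * (A * β * s) := by ring
        exact le_of_mul_le_mul_left (h6.trans h7) hA0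
      calc (A * t - s) * t ≤ β * t := mul_le_mul_of_nonneg_right h4 hy0.le
        _ ≤ β * (A * β * s) := mul_le_mul_of_nonneg_left h5 hβ0.le
        _ = A * β ^ 2 * s := by ring
    rw [h2]; linarith
  · have h1 : Real.log (s / (A * t)) ≤ s / (A * t) - 1 := Real.log_le_sub_one_of_pos (by positivity)
    have h3 : s / (A * t) - 1 ≤ A * β ^ 2 * (1 / t) := by
      rw [div_sub_one (by positivity), mul_one_div, div_le_div_iff₀ (by positivity) hy0]
      have h4 : s - A * t ≤ β := by linarith
      calc (s - A * t) * t ≤ β * t := mul_le_mul_of_nonneg_right h4 hy0.le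
        _ ≤ A * β ^ 2 * (A * t) := by
            have h5 : β ≤ A * A * β ^ 2 := by nlinarith [mul_self_nonneg (A * β - 1)]
            nlinarith
    linarith

theorem log_iter_sum (H : Par a b) {x : ℤ} (hx : ∀ j, (T a b)^[j] x ≠ 0) (k : ℕ) :
    |Real.log |(((T a b)^[k] x : ℤ) : ℝ)| - Real.log |(x : ℝ)| + k * Real.log 2 -
      od a b k x * Real.log a| ≤ cc a b * ∑ j ∈ range k, 1 / |(((T a b)^[j] x : ℤ) : ℝ)| := by
  induction k with
  | zero => simp [od]
  | succ k ih =>
    rw [sum_range_succ, Function.iterate_succ_apply', mul_add]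
    have hzne := hx k
    have hzne' := hx (k + 1)
    rw [Function.iterate_succ_apply'] at hzne'
    set z := (T a b)^[k] x with hz
    have hz1 : (1 : ℝ) ≤ |(z : ℝ)| := by
      have : (1 : ℤ) ≤ |z| := Int.one_le_abs hzne
      exact_mod_cast this
    have hz0 : 0 < |(z : ℝ)| := by linarith
    have hcc := H.cc_ge
    rcases par z with h' | h'
    · rw [od_succ_even h']
      have h1 := T_even (a := a) (b := b) h'
      have h2 : (2 : ℝ) * ((T a b z : ℤ) : ℝ) = (z : ℝ) := by exact_mod_cast h1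
      have h3 : Real.log |(z : ℝ)| = Real.log 2 + Real.log |((T a b z : ℤ) : ℝ)| := by
        rw [← h2, abs_mul, Real.log_mul (by norm_num)]
        · norm_num
        · intro h0
          rw [← h2, abs_mul, h0, mul_zero] at hz0
          exact lt_irrefl _ hz0
      rw [h3] at ih
      push_cast
      have e : Real.log |((T a b z : ℤ) : ℝ)| - Real.log |(x : ℝ)| + ((k : ℝ) + 1) * Real.log 2 -
          od a b k x * Real.log a = Real.log 2 + Real.log |((T a b z : ℤ) : ℝ)| - Real.log |(x : ℝ)| +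
          k * Real.log 2 - od a b k x * Real.log a := by ring
      rw [e]
      have : 0 ≤ cc a b * (1 / |(z : ℝ)|) := by positivity
      linarith
    · rw [od_succ_odd h']
      have h1 := T_odd H h'
      have h2 : (2 : ℝ) * ((T a b z : ℤ) : ℝ) = a * (z : ℝ) + b := by exact_mod_cast h1
      have hTz : ((T a b z : ℤ) : ℝ) ≠ 0 := by exact_mod_cast hzne'
      have hab : a * z + b ≠ 0 := by
        rw [← h1]; omega
      have h3 : Real.log |((T a b z : ℤ) : ℝ)| = Real.log |a * (z : ℝ) + b| - Real.log 2 := by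
        rw [← h2, abs_mul, Real.log_mul (by norm_num) (abs_ne_zero.2 hTz)]
        norm_num
      have h4 := log_step H hzne hab
      rw [h3]
      push_cast
      have e : Real.log |a * (z : ℝ) + b| - Real.log 2 - Real.log |(x : ℝ)| + ((k : ℝ) + 1) * Real.log 2 -
          ((od a b k x : ℝ) + 1) * Real.log a = (Real.log |(z : ℝ)| - Real.log |(x : ℝ)| +
          k * Real.log 2 - od a b k x * Real.log a) +
          (Real.log |a * (z : ℝ) + b| - Real.log |(z : ℝ)| - Real.log a) := by ring
      rw [e]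
      refine (abs_add_le _ _).trans ?_
      linarith

theorem log_iter (H : Par a b) {x : ℤ} {N : ℝ} (hN : 1 ≤ N)
    (h : ∀ j, N ≤ |(((T a b)^[j] x : ℤ) : ℝ)|) (k : ℕ) :
    |Real.log |(((T a b)^[k] x : ℤ) : ℝ)| - Real.log |(x : ℝ)| + k * Real.log 2 -
      od a b k x * Real.log a| ≤ k * (cc a b / N) := by
  have hx : ∀ j, (T a b)^[j] x ≠ 0 := by
    intro j h0
    have := h j
    rw [h0] at this
    simp at this
    linarith
  refine (log_iter_sum H hx k).trans ?_
  have h1 : ∑ j ∈ range k, 1 / |(((T a b)^[j] x : ℤ) : ℝ)| ≤ ∑ j ∈ range k, 1 / N :=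
    sum_le_sum fun j _ => one_div_le_one_div_of_le (by linarith) (h j)
  rw [sum_const, card_range, nsmul_eq_mul] at h1
  have hcc := H.cc_ge
  calc _ ≤ cc a b * (k * (1 / N)) := mul_le_mul_of_nonneg_left h1 (by linarith)
    _ = k * (cc a b / N) := by ring

theorem irrational (H : Par a b) : Irrational (Real.log 2 / Real.log a) := by
  rintro ⟨r, hr⟩
  have hla := H.log_pos
  have hl2 : 0 < Real.log 2 := Real.log_pos (by norm_num)
  have hA0 : (0 : ℝ) < a := by linarith [H.a_ge]
  have hr0 : (0 : ℝ) < r := by rw [hr]; positivity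
  have hnum : 0 < r.num := by
    rw [Rat.num_pos]; exact_mod_cast hr0
  obtain ⟨n, hn⟩ := Int.eq_ofNat_of_zero_le hnum.le
  have hden : (0 : ℝ) < r.den := by exact_mod_cast r.den_pos
  have h1 : (r : ℝ) = (n : ℝ) / r.den := by
    have := Rat.cast_def (K := ℝ) r
    rw [this, hn]; simp
  rw [h1, div_eq_div_iff hden.ne' (by linarith)] at hr
  have h2 : Real.log ((a : ℝ) ^ n) = Real.log ((2 : ℝ) ^ r.den) := by
    rw [Real.log_pow, Real.log_pow]; linarith
  have h3 : (a : ℝ) ^ n = (2 : ℝ) ^ r.den :=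
    Real.log_injOn_pos (Set.mem_Ioi.2 (by positivity)) (Set.mem_Ioi.2 (by positivity)) h2
  have h4 : (a : ℤ) ^ n = (2 : ℤ) ^ r.den := by exact_mod_cast h3
  have h5 : Odd ((a : ℤ) ^ n) := (Int.odd_iff.2 H.ha).pow
  have h6 : Even ((2 : ℤ) ^ r.den) := by
    apply Even.pow_of_ne_zero (by norm_num) r.den_pos.ne'
  rw [h4] at h5
  exact (Int.not_even_iff_odd.2 h5) h6

/-- good rational approximations to an irrational number with large denominators -/
theorem exists_approx {α : ℝ} (hα : Irrational α) (Q : ℝ) : ∃ (q : ℕ) (h : ℤ), 0 < q ∧ Q ≤ q ∧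
    IsCoprime h (q : ℤ) ∧ |(q : ℝ) * α - h| ≤ 1 / q := by
  have hinf := Real.infinite_rat_abs_sub_lt_one_div_den_sq_of_irrational hα
  by_contra hcon
  push Not at hcon
  apply hinf
  -- all these rationals have bounded denominators and numerators
  set M : ℤ := ⌈(|α| + 1) * |Q|⌉ with hM
  have hmaps : {q : ℚ | |α - q| < 1 / (q.den : ℝ) ^ 2} ⊆
      (fun u : ℤ × ℤ => (u.1 : ℚ) / u.2) '' (((Finset.Icc (-M) M) ×ˢ (Finset.Icc (0 : ℤ) ⌈|Q|⌉) : Finset (ℤ × ℤ)) : Set (ℤ × ℤ)) := by
    intro r hr
    have hr : |α - r| < 1 / (r.den : ℝ) ^ 2 := hr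
    have hd0 : (0 : ℝ) < r.den := by exact_mod_cast r.den_pos
    have hd1 : (1 : ℝ) ≤ r.den := by exact_mod_cast r.den_pos
    have hcast : (r : ℝ) = (r.num : ℝ) / r.den := Rat.cast_def r
    have hcop : IsCoprime r.num (r.den : ℤ) := by
      rw [Int.isCoprime_iff_gcd_eq_one, Int.gcd_eq_natAbs]
      simpa using r.reduced
    have hlt : |(r.den : ℝ) * α - r.num| ≤ 1 / r.den := by
      have e : (r.den : ℝ) * α - r.num = r.den * (α - r) := by rw [hcast]; field_simp
      rw [e, abs_mul, abs_of_pos hd0]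
      calc (r.den : ℝ) * |α - r| ≤ r.den * (1 / (r.den : ℝ) ^ 2) :=
            mul_le_mul_of_nonneg_left hr.le hd0.le
        _ = 1 / r.den := by field_simp
    have hdQ : (r.den : ℝ) < Q := by
      by_contra h
      push Not at h
      exact absurd hlt (not_le.2 (hcon r.den r.num r.den_pos h hcop))
    have hdQ' : (r.den : ℝ) ≤ |Q| := hdQ.le.trans (le_abs_self Q)
    refine ⟨(r.num, (r.den : ℤ)), ?_, ?_⟩
    · rw [Finset.mem_coe, Finset.mem_product, Finset.mem_Icc, Finset.mem_Icc]
      have h1 : |(r.num : ℝ)| ≤ (|α| + 1) * |Q| := by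
        have h2 : |(r : ℝ)| ≤ |α| + 1 := by
          have h3 : |α - r| ≤ 1 := by
            refine hr.le.trans ?_
            rw [div_le_one (by positivity)]
            nlinarith
          have h4 : |(r : ℝ)| = |α - (α - r)| := by congr 1; ring
          rw [h4]
          exact (abs_sub _ _).trans (by linarith)
        have h5 : (r.num : ℝ) = r * r.den := by rw [hcast]; field_simp
        rw [h5, abs_mul, abs_of_pos hd0]
        exact mul_le_mul h2 hdQ' hd0.le (by positivity)
      have h6 : |r.num| ≤ M := by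
        have : (|r.num| : ℝ) ≤ (M : ℝ) := h1.trans (Int.le_ceil _)
        exact_mod_cast this
      have h7 : (r.den : ℤ) ≤ ⌈|Q|⌉ := by
        have : ((r.den : ℤ) : ℝ) ≤ (⌈|Q|⌉ : ℝ) := by
          push_cast
          exact hdQ'.trans (Int.le_ceil _)
        exact_mod_cast this
      exact ⟨abs_le.1 h6, by positivity, h7⟩
    · show ((r.num : ℤ) : ℚ) / ((r.den : ℤ) : ℚ) = r
      have := Rat.num_div_den r
      push_cast
      exact this
  exact (Set.Finite.image _ (Finset.finite_toSet _)).subset hmaps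

end Pool.Agent.TH926.OSG
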