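import Pool.Agent.TH926.OSG.Cyc

set_option autoImplicit false

/-!
Cycles of `T_{a,b}` with bounded oscillation are short: the coding by visits of a rotation.
-/

namespace Pool.Agent.TH926.OSG

open Finset Pool.Agent.H547R3

variable {a b : ℤ}

/-- the times at which a branching is possible -/
noncomputable def V (a : ℤ) (δ τ : ℝ) (k m : ℕ) : Finset ℕ := by
  classical
  exact (range k).filter fun i => ∃ o : ℤ,
    |(m : ℝ) * τ - i * Real.log 2 + o * Real.log a - (Real.log 2 + δ / 2)| ≤ δ / 2 + 2 * τ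

theorem mem_V {δ τ : ℝ} {k m i : ℕ} : i ∈ V a δ τ k m ↔ i < k ∧ ∃ o : ℤ,
    |(m : ℝ) * τ - i * Real.log 2 + o * Real.log a - (Real.log 2 + δ / 2)| ≤ δ / 2 + 2 * τ := by
  classical
  unfold V
  rw [mem_filter, mem_range]

theorem V_card (H : Par a b) {δ τ : ℝ} (hδ : 0 ≤ δ) (hτ : 0 < τ) {q : ℕ} {h : ℤ} (hq : 0 < q)
    (hcop : IsCoprime h (q : ℤ)) (hα : |(q : ℝ) * (Real.log 2 / Real.log a) - h| ≤ 1 / q) (k m : ℕ) :
    ((V a δ τ k m).card : ℝ) ≤ ((k : ℝ) / q + 1) * (2 * ((δ / 2 + 2 * τ) / Real.log a) * q + 3) := by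
  have hl3 : 0 < Real.log a := by have := H.log_pos; linarith
  apply rot_count (Real.log 2 / Real.log a) q h hq hcop hα
    (((m : ℝ) * τ - (Real.log 2 + δ / 2)) / Real.log a) _ (by positivity) k
  intro i hi
  rw [mem_V] at hi
  obtain ⟨hik, o, ho⟩ := hi
  refine ⟨hik, o, ?_⟩
  have e : (i : ℝ) * (Real.log 2 / Real.log a) - ((m : ℝ) * τ - (Real.log 2 + δ / 2)) / Real.log a - o =
      -((m : ℝ) * τ - i * Real.log 2 + o * Real.log a - (Real.log 2 + δ / 2)) / Real.log a := by
    field_simp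
    ring
  rw [e, abs_div, abs_neg, abs_of_pos hl3]
  exact div_le_div_of_nonneg_right ho hl3.le

/-- the number of odd terms is determined by the parities -/
theorem od_congr {x y : ℤ} {i : ℕ} (h : ∀ j < i, ((T a b)^[j] x) % 2 = ((T a b)^[j] y) % 2) :
    od a b i x = od a b i y := by
  unfold od
  congr 1
  apply filter_congr
  intro j hj
  rw [mem_range] at hj
  rw [h j hj]

/-- log of an odd element whose image is bounded -/
theorem odd_upper (H : Par a b) {z : ℤ} {M τ : ℝ} (hτ : 0 < τ) (hM : cc a b / M ≤ τ) (hM0 : 0 < M)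
    (hodd : z % 2 = 1) (hz : |((T a b z : ℤ) : ℝ)| ≤ M) :
    Real.log |(z : ℝ)| ≤ Real.log M + Real.log 2 - Real.log a + τ := by
  have h1 := T_odd H hodd
  have hA := H.a_ge
  have hA0 : (0 : ℝ) < a := by linarith
  have hbc := H.b_le
  have h2 : (2 : ℝ) * ((T a b z : ℤ) : ℝ) = a * (z : ℝ) + b := by exact_mod_cast h1
  have hz0 : z ≠ 0 := by intro h; rw [h] at hodd; simp at hodd
  have hzr : 0 < |(z : ℝ)| := abs_pos.2 (by exact_mod_cast hz0)
  have h3 : a * |(z : ℝ)| - |(b : ℝ)| ≤ 2 * M := by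
    have h4 : a * |(z : ℝ)| - |(b : ℝ)| ≤ |a * (z : ℝ) + b| := by
      have := abs_sub_abs_le_abs_sub (a * (z : ℝ)) (-b)
      rw [abs_mul, abs_neg, sub_neg_eq_add, abs_of_pos hA0] at this
      exact this
    rw [← h2, abs_mul] at h4
    norm_num at h4
    linarith
  have h5 : |(z : ℝ)| ≤ 2 * M / a * (1 + τ) := by
    have h6 : cc a b ≤ τ * M := by rwa [div_le_iff₀ hM0] at hM
    have h7 : a * |(z : ℝ)| ≤ 2 * M * (1 + τ) := by nlinarith
    have e : 2 * M / a * (1 + τ) = (2 * M * (1 + τ)) / a := by ring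
    rw [e, le_div_iff₀ hA0]
    linarith
  have h7 : Real.log |(z : ℝ)| ≤ Real.log (2 * M / a * (1 + τ)) := Real.log_le_log hzr h5
  rw [Real.log_mul (by positivity) (by positivity), Real.log_div (by positivity) hA0.ne',
    Real.log_mul (by norm_num) hM0.ne'] at h7
  have h8 : Real.log (1 + τ) ≤ τ := by
    have := Real.log_le_sub_one_of_pos (show 0 < 1 + τ by positivity)
    linarith
  linarith

theorem even_lower {z : ℤ} {N : ℝ} (hN0 : 0 < N) (heven : z % 2 = 0)
    (hz : N ≤ |((T a b z : ℤ) : ℝ)|) : Real.log N + Real.log 2 ≤ Real.log |(z : ℝ)| := by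
  have h1 := T_even (a := a) (b := b) heven
  have h2 : (2 : ℝ) * ((T a b z : ℤ) : ℝ) = (z : ℝ) := by exact_mod_cast h1
  rw [← h2, abs_mul]
  norm_num
  have h3 : Real.log (2 * N) ≤ Real.log (2 * |((T a b z : ℤ) : ℝ)|) :=
    Real.log_le_log (by positivity) (by linarith)
  rw [Real.log_mul (by norm_num) hN0.ne'] at h3
  linarith

/-- **Coding.** A finite set closed under `T` inside a window `[N, B N]` has few elements. -/
theorem window_card (H : Par a b) {B τ : ℝ} (hB : (a : ℝ) ≤ B) (hτ : 0 < τ) {N : ℝ} (hN : 1 ≤ N) {k : ℕ}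
    (hk : 2 * (B * N) < 2 ^ k) (hkN : (k : ℝ) * (cc a b / N) ≤ τ) (hNτ : cc a b / N ≤ τ)
    {Z : Finset ℤ} (hcl : ∀ x ∈ Z, ∀ j, (T a b)^[j] x ∈ Z)
    (hZ : ∀ x ∈ Z, N ≤ |(x : ℝ)| ∧ |(x : ℝ)| ≤ B * N) (K : ℕ)
    (hK : ∀ m, (V a (Real.log B - Real.log a) τ k m).card ≤ K) :
    Z.card ≤ (⌊Real.log B / τ⌋₊ + 1) * 2 ^ K := by
  classical
  have hA := H.a_ge
  have hccge := H.cc_ge
  have hN0 : 0 < N := by linarith
  have hB0 : 0 < B := by linarith
  have hB1 : 1 ≤ B := by linarith
  have hBN : 0 < B * N := by positivity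
  set δ : ℝ := Real.log B - Real.log a with hδ
  have hlogB : Real.log (B * N) = Real.log B + Real.log N := Real.log_mul hB0.ne' hN0.ne'
  -- the bucket of an element
  set bk : ℤ → ℕ := fun x => ⌊(Real.log |(x : ℝ)| - Real.log N) / τ⌋₊ with hb
  have hlog : ∀ x ∈ Z, Real.log N ≤ Real.log |(x : ℝ)| ∧ Real.log |(x : ℝ)| ≤ Real.log B + Real.log N := by
    intro x hx
    obtain ⟨h1, h2⟩ := hZ x hx
    refine ⟨Real.log_le_log hN0 h1, ?_⟩
    rw [← hlogB]
    exact Real.log_le_log (by linarith) h2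
  have hb1 : ∀ x ∈ Z, (bk x : ℝ) * τ ≤ Real.log |(x : ℝ)| - Real.log N ∧
      Real.log |(x : ℝ)| - Real.log N ≤ (bk x : ℝ) * τ + τ := by
    intro x hx
    have h0 : 0 ≤ (Real.log |(x : ℝ)| - Real.log N) / τ := by
      apply div_nonneg _ hτ.le
      linarith [(hlog x hx).1]
    have h1 := Nat.floor_le h0
    have h2 := Nat.lt_floor_add_one ((Real.log |(x : ℝ)| - Real.log N) / τ)
    rw [le_div_iff₀ hτ] at h1
    rw [div_lt_iff₀ hτ] at h2
    constructor
    · exact h1
    · have : (bk x : ℝ) = (⌊(Real.log |(x : ℝ)| - Real.log N) / τ⌋₊ : ℝ) := rfl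
      rw [this]
      linarith
  have hbR : ∀ x ∈ Z, bk x ∈ range (⌊Real.log B / τ⌋₊ + 1) := by
    intro x hx
    rw [mem_range]
    apply Nat.lt_succ_of_le
    apply Nat.floor_le_floor
    apply div_le_div_of_nonneg_right _ hτ.le
    linarith [(hlog x hx).2]
  -- position of the iterates
  have hpos : ∀ x ∈ Z, ∀ i ≤ k, |Real.log |(((T a b)^[i] x : ℤ) : ℝ)| - Real.log |(x : ℝ)| + i * Real.log 2 -
      od a b i x * Real.log a| ≤ τ := by
    intro x hx i hi
    refine (log_iter H hN (fun j => (hZ _ (hcl x hx j)).1) i).trans (le_trans ?_ hkN)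
    apply mul_le_mul_of_nonneg_right _ (by positivity)
    exact_mod_cast hi
  -- the key claim
  have key : ∀ x ∈ Z, ∀ y ∈ Z, bk x = bk y →
      (∀ i ∈ V a δ τ k (bk x), ((T a b)^[i] x) % 2 = 1 ↔ ((T a b)^[i] y) % 2 = 1) →
      ∀ i < k, ((T a b)^[i] x) % 2 = ((T a b)^[i] y) % 2 := by
    -- one-sided version
    have one : ∀ x ∈ Z, ∀ y ∈ Z, bk x = bk y →
        ∀ i < k, (∀ j < i, ((T a b)^[j] x) % 2 = ((T a b)^[j] y) % 2) → ((T a b)^[i] x) % 2 = 1 →
          ((T a b)^[i] y) % 2 = 0 → i ∈ V a δ τ k (bk x) := by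
      intro x hx y hy hbxy i hik hj hox hey
      rw [mem_V]
      refine ⟨hik, (od a b i x : ℤ), ?_⟩
      have hod := od_congr hj
      have h1 := hpos x hx i hik.le
      have h2 := hpos y hy i hik.le
      rw [← hod] at h2
      have h3 := hb1 x hx
      have h4 := hb1 y hy
      rw [← hbxy] at h4
      have hTx : |((T a b ((T a b)^[i] x) : ℤ) : ℝ)| ≤ B * N := by
        have := (hZ _ (hcl x hx (i + 1))).2
        rwa [Function.iterate_succ_apply'] at this
      have hTy : N ≤ |((T a b ((T a b)^[i] y) : ℤ) : ℝ)| := by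
        have := (hZ _ (hcl y hy (i + 1))).1
        rwa [Function.iterate_succ_apply'] at this
      have hMτ : cc a b / (B * N) ≤ τ := by
        refine le_trans (div_le_div_of_nonneg_left (by linarith) hN0 ?_) hNτ
        nlinarith
      have h5 := odd_upper H hτ hMτ hBN hox hTx
      have h6 := even_lower hN0 hey hTy
      rw [hlogB] at h5
      rw [abs_le] at h1 h2 ⊢
      push_cast
      constructor
      · linarith [h1.1, h1.2, h2.1, h2.2, h3.1, h3.2, h4.1, h4.2]
      · linarith [h1.1, h1.2, h2.1, h2.2, h3.1, h3.2, h4.1, h4.2]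
    intro x hx y hy hbxy hV i
    induction i using Nat.strong_induction_on with
    | _ i ih =>
      intro hik
      have hj : ∀ j < i, ((T a b)^[j] x) % 2 = ((T a b)^[j] y) % 2 := fun j hji => ih j hji (by omega)
      rcases par ((T a b)^[i] x) with h1 | h1 <;> rcases par ((T a b)^[i] y) with h2 | h2
      · rw [h1, h2]
      · exfalso
        have := one y hy x hx hbxy.symm i hik (fun j hji => (hj j hji).symm) h2 h1
        rw [← hbxy] at this
        have := (hV i this).2 h2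
        omega
      · exfalso
        have := one x hx y hy hbxy i hik hj h1 h2
        have := (hV i this).1 h1
        omega
      · rw [h1, h2]
  -- injectivity of the code
  set code : ℤ → (Σ _ : ℕ, Finset ℕ) :=
    fun x => ⟨bk x, (V a δ τ k (bk x)).filter fun i => ((T a b)^[i] x) % 2 = 1⟩ with hcode
  have hinj : Set.InjOn code Z := by
    intro x hx y hy hxy
    rw [hcode] at hxy
    simp only [Sigma.mk.injEq] at hxy
    obtain ⟨hbxy, hf⟩ := hxy
    have hf := eq_of_heq hf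
    have hpar := key x hx y hy hbxy (by
      intro i hi
      have h1 : i ∈ ((V a δ τ k (bk x)).filter fun i => ((T a b)^[i] x) % 2 = 1) ↔
          i ∈ ((V a δ τ k (bk y)).filter fun i => ((T a b)^[i] y) % 2 = 1) := by rw [hf]
      rw [mem_filter, mem_filter, ← hbxy] at h1
      tauto)
    have hdvd := same_par H k x y hpar
    have habs : |x - y| < 2 ^ k := by
      have h1 := (hZ x hx).2
      have h2 := (hZ y hy).2
      have h3 : |((x - y : ℤ) : ℝ)| < 2 ^ k := by
        push_cast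
        refine lt_of_le_of_lt (abs_sub _ _) ?_
        linarith
      exact_mod_cast h3
    have := Int.eq_zero_of_abs_lt_dvd hdvd habs
    omega
  have hmem : ∀ x ∈ Z, code x ∈ (range (⌊Real.log B / τ⌋₊ + 1)).sigma fun m => (V a δ τ k m).powerset := by
    intro x hx
    rw [mem_sigma]
    exact ⟨hbR x hx, by rw [mem_powerset]; exact filter_subset _ _⟩
  have h1 := card_le_card_of_injOn code hmem hinj
  refine h1.trans ?_
  rw [card_sigma]
  calc ∑ m ∈ range (⌊Real.log B / τ⌋₊ + 1), ((V a δ τ k m).powerset).card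
      ≤ ∑ m ∈ range (⌊Real.log B / τ⌋₊ + 1), 2 ^ K := by
        apply sum_le_sum
        intro m _
        rw [card_powerset]
        exact Nat.pow_le_pow_right (by norm_num) (hK m)
    _ = (⌊Real.log B / τ⌋₊ + 1) * 2 ^ K := by rw [sum_const, card_range, smul_eq_mul]

end Pool.Agent.TH926.OSG
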