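import Pool.Agent.TH926.OSG.Basic

set_option autoImplicit false

/-!
Cycles of `T_{a,b}` on the integers as finite sets.
-/

namespace Pool.Agent.TH926.OSG

open Finset

variable {a b : ℤ}

/-- `Z` is a cycle of `T_{a,b}`. -/
def IsCycle (a b : ℤ) (Z : Finset ℤ) : Prop :=
  ∃ (x : ℤ) (p : ℕ), 1 ≤ p ∧ (T a b)^[p] x = x ∧ Z = (Finset.range p).image fun i => (T a b)^[i] x

/-- the number of odd elements of `Z` -/
def odds (Z : Finset ℤ) : ℕ := (Z.filter fun x => x % 2 = 1).card

/-- normal form: the period can be taken to be the minimal period -/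
theorem IsCycle.normal {Z : Finset ℤ} (hZ : IsCycle a b Z) : ∃ x : ℤ, x ∈ Z ∧
    0 < Function.minimalPeriod (T a b) x ∧
    Z = (Finset.range (Function.minimalPeriod (T a b) x)).image (fun i => (T a b)^[i] x) ∧
    Z.card = Function.minimalPeriod (T a b) x ∧ odds Z = od a b (Function.minimalPeriod (T a b) x) x ∧
    Set.InjOn (fun i => (T a b)^[i] x) (Set.Iio (Function.minimalPeriod (T a b) x)) := by
  classical
  obtain ⟨x, p, hp, hx, rfl⟩ := hZ
  have hper : Function.IsPeriodicPt (T a b) p x := hx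
  have hpos : 0 < Function.minimalPeriod (T a b) x := hper.minimalPeriod_pos hp
  set m := Function.minimalPeriod (T a b) x with hm
  have hinj : Set.InjOn (fun i => (T a b)^[i] x) (Set.Iio m) := by
    rw [hm]; exact Function.iterate_injOn_Iio_minimalPeriod
  have hset : (Finset.range p).image (fun i => (T a b)^[i] x) =
      (Finset.range m).image (fun i => (T a b)^[i] x) := by
    ext y
    simp only [mem_image, mem_range]
    constructor
    · rintro ⟨i, _, rfl⟩
      exact ⟨i % m, Nat.mod_lt _ hpos, Function.iterate_mod_minimalPeriod_eq⟩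
    · rintro ⟨i, hi, rfl⟩
      have hle : m ≤ p := hper.minimalPeriod_le hp
      exact ⟨i, by omega, rfl⟩
  have hinj' : Set.InjOn (fun i => (T a b)^[i] x) (Finset.range m : Set ℕ) := by
    intro i hi j hj h
    exact hinj (by simpa using hi) (by simpa using hj) h
  refine ⟨x, ?_, hpos, hset, ?_, ?_, hinj⟩
  · rw [mem_image]
    exact ⟨0, by rw [mem_range]; omega, rfl⟩
  · rw [hset, card_image_of_injOn hinj', card_range]
  · unfold odds od
    rw [hset, filter_image, card_image_of_injOn]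
    intro i hi j hj h
    exact hinj' (by simp at hi ⊢; exact hi.1) (by simp at hj ⊢; exact hj.1) h

theorem IsCycle.closed {Z : Finset ℤ} (hZ : IsCycle a b Z) {y : ℤ} (hy : y ∈ Z) (j : ℕ) :
    (T a b)^[j] y ∈ Z := by
  classical
  obtain ⟨x, -, hpos, hset, -, -, -⟩ := hZ.normal
  rw [hset, mem_image] at hy ⊢
  obtain ⟨i, hi, rfl⟩ := hy
  refine ⟨(j + i) % Function.minimalPeriod (T a b) x, mem_range.2 (Nat.mod_lt _ hpos), ?_⟩
  rw [Function.iterate_mod_minimalPeriod_eq, Function.iterate_add_apply]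

theorem IsCycle.back {Z : Finset ℤ} (hZ : IsCycle a b Z) {y z : ℤ} (hy : y ∈ Z) (hz : z ∈ Z) :
    ∃ j : ℕ, (T a b)^[j] y = z := by
  classical
  obtain ⟨x, -, hpos, hset, -, -, -⟩ := hZ.normal
  rw [hset, mem_image] at hy hz
  obtain ⟨i, hi, rfl⟩ := hy
  obtain ⟨j, hj, rfl⟩ := hz
  rw [mem_range] at hi hj
  set m := Function.minimalPeriod (T a b) x with hm
  refine ⟨j + (m - i), ?_⟩
  show (T a b)^[j + (m - i)] ((T a b)^[i] x) = (T a b)^[j] x
  rw [← Function.iterate_add_apply]
  have e : j + (m - i) + i = j + m := by omega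
  rw [e, Function.iterate_add_apply, hm, Function.iterate_minimalPeriod]

theorem IsCycle.eq_of_mem {Z Z' : Finset ℤ} (hZ : IsCycle a b Z) (hZ' : IsCycle a b Z') {y : ℤ}
    (hy : y ∈ Z) (hy' : y ∈ Z') : Z = Z' := by
  ext z
  constructor
  · intro hz
    obtain ⟨j, rfl⟩ := hZ.back hy hz
    exact hZ'.closed hy' j
  · intro hz
    obtain ⟨j, rfl⟩ := hZ'.back hy' hz
    exact hZ.closed hy j

theorem IsCycle.card_pos {Z : Finset ℤ} (hZ : IsCycle a b Z) : 0 < Z.card := by
  obtain ⟨x, hx, _⟩ := hZ.normal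
  exact Finset.card_pos.2 ⟨x, hx⟩

theorem IsCycle.per {Z : Finset ℤ} (hZ : IsCycle a b Z) {x0 : ℤ} (hx0 : x0 ∈ Z) :
    (T a b)^[Z.card] x0 = x0 := by
  obtain ⟨z, hz, hpos, hset, hcard, -, -⟩ := hZ.normal
  obtain ⟨j, hj⟩ := hZ.back hz hx0
  rw [hcard, ← hj, ← Function.iterate_add_apply, Nat.add_comm, Function.iterate_add_apply,
    Function.iterate_minimalPeriod]

/-- the linear form of a cycle is bounded by the sum of the reciprocals of its elements -/
theorem IsCycle.form_le (H : Par a b) {Z : Finset ℤ} (hZ : IsCycle a b Z) (h0 : (0 : ℤ) ∉ Z) :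
    |(Z.card : ℝ) * Real.log 2 - odds Z * Real.log a| ≤ cc a b * ∑ x ∈ Z, 1 / |(x : ℝ)| := by
  classical
  obtain ⟨x, hxZ, hpos, hset, hcard, hodd, hinj⟩ := hZ.normal
  have hx0 : ∀ j, (T a b)^[j] x ≠ 0 := fun j h => h0 (h ▸ hZ.closed hxZ j)
  have h := log_iter_sum H hx0 (Function.minimalPeriod (T a b) x)
  rw [Function.iterate_minimalPeriod, sub_self, zero_add] at h
  rw [hcard, hodd]
  refine h.trans (le_of_eq ?_)
  congr 1
  conv_rhs => rw [hset]
  rw [sum_image]
  intro i hi j hj hij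
  exact hinj (by simpa using hi) (by simpa using hj) hij

end Pool.Agent.TH926.OSG
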