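import Pool.Agent.TH926.OSG.Main

set_option autoImplicit false

/-!
Cycles of `x/2`, `(3x+b)/2` of bounded oscillation: lengths.
-/

namespace Pool.Agent.TH926.OSG

open Finset Filter

variable {a b : ℤ}

/-- `a = 3`: the elements are polynomially bounded in the length -/
lemma elements_le (H : Par a b) (h3 : a = 3) {B : ℝ} (hB3 : (a : ℝ) ≤ B) : ∃ D : ℝ, 1 ≤ D ∧
    ∀ Z : Finset ℤ, Osc a b B Z → ∀ x ∈ Z, |(x : ℝ)| ≤ D * (Z.card : ℝ) ^ 14 := by
  obtain ⟨c, hc, hm⟩ := Pool.Agent.H319R2.measure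
  have hA := H.a_ge
  have hcc := H.cc_ge
  refine ⟨max 1 (B * (cc a b * 2 ^ 13 / c)), le_max_left _ _, ?_⟩
  intro Z hZ x hx
  obtain ⟨x0, hx0, h1, hmin, hx0r⟩ := hZ.min
  have hx00 : 0 < |(x0 : ℝ)| := by linarith
  have hpN := hZ.1.card_pos
  have hp : 0 < (Z.card : ℝ) := by exact_mod_cast hpN
  have h2 := form_min H hZ h1 fun y hy => (hx0r y hy).1
  have h4 := hm (Z.card : ℤ) (-(odds Z : ℤ)) (Or.inl (by exact_mod_cast hpN.ne'))
  have e : ((Z.card : ℤ) : ℝ) * Real.log 2 + ((-(odds Z : ℤ) : ℤ) : ℝ) * Real.log 3 = form a Z := by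
    unfold form; rw [h3]; push_cast; ring
  rw [e] at h4
  have h5 : ((|(Z.card : ℤ)| + |(-(odds Z : ℤ))| : ℤ) : ℝ) ≤ 2 * Z.card := by
    have : |(Z.card : ℤ)| + |(-(odds Z : ℤ))| ≤ 2 * Z.card := by
      rw [abs_neg, abs_of_nonneg (by positivity), abs_of_nonneg (by positivity)]
      have := odds_le Z
      omega
    exact_mod_cast this
  have h6 : (0 : ℝ) ≤ ((|(Z.card : ℤ)| + |(-(odds Z : ℤ))| : ℤ) : ℝ) := by
    have : (0 : ℤ) ≤ |(Z.card : ℤ)| + |(-(odds Z : ℤ))| := by positivity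
    exact_mod_cast this
  have h7 : c ≤ (2 * (Z.card : ℝ)) ^ 13 * (cc a b * (Z.card / |(x0 : ℝ)|)) :=
    h4.trans (mul_le_mul (pow_le_pow_left₀ h6 h5 13) h2 (abs_nonneg _) (by positivity))
  have h8 : |(x0 : ℝ)| ≤ cc a b * 2 ^ 13 / c * (Z.card : ℝ) ^ 14 := by
    have e2 : (2 * (Z.card : ℝ)) ^ 13 * (cc a b * (Z.card / |(x0 : ℝ)|)) =
        (cc a b * 2 ^ 13 * (Z.card : ℝ) ^ 14) / |(x0 : ℝ)| := by
      field_simp
    rw [e2, le_div_iff₀ hx00] at h7
    have e3 : cc a b * 2 ^ 13 / c * (Z.card : ℝ) ^ 14 = (cc a b * 2 ^ 13 * (Z.card : ℝ) ^ 14) / c := by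
      ring
    rw [e3, le_div_iff₀ hc]
    linarith
  calc |(x : ℝ)| ≤ B * |(x0 : ℝ)| := (hx0r x hx).2
    _ ≤ B * (cc a b * 2 ^ 13 / c * (Z.card : ℝ) ^ 14) := mul_le_mul_of_nonneg_left h8 (by linarith)
    _ = B * (cc a b * 2 ^ 13 / c) * (Z.card : ℝ) ^ 14 := by ring
    _ ≤ _ := mul_le_mul_of_nonneg_right (le_max_right _ _) (by positivity)

/-- finitely many cycles of small oscillation -/
theorem finite_small (H : Par a b) {B : ℝ} (hB3 : (a : ℝ) ≤ B) (hB : B < (a : ℝ) ^ (15 / 14 : ℝ))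
    (hel : ∃ D : ℝ, 1 ≤ D ∧ ∀ Z : Finset ℤ, Osc a b B Z → ∀ x ∈ Z,
      |(x : ℝ)| ≤ D * (Z.card : ℝ) ^ 14) : {Z : Finset ℤ | Osc a b B Z}.Finite := by
  have hA := H.a_ge
  have hl3 : 0 < Real.log a := by have := H.log_pos; linarith
  have ht : Real.log B / Real.log a - 1 < 1 / 14 := by
    have h1 := Real.log_lt_log (by linarith) hB
    rw [Real.log_rpow (by linarith)] at h1
    have h2 : Real.log B / Real.log a < 15 / 14 := by rwa [div_lt_iff₀ hl3]
    linarith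
  obtain ⟨γ, hγt, hγ1⟩ := exists_between ht
  have hγ0 : 0 < γ := gamma_pos H hB3 hγt
  obtain ⟨C, hC, h1⟩ := one H hB3 hγt
  obtain ⟨D, hD1, hD⟩ := hel
  have he : 0 < 1 - 14 * γ := by linarith
  refine (finite_card H B hB3 ((C * D ^ γ) ^ (1 / (1 - 14 * γ)))).subset ?_
  intro Z hZ
  have hZ : Osc a b B Z := hZ
  refine ⟨hZ, ?_⟩
  obtain ⟨x0, hx0, h2, -, -⟩ := hZ.min
  have hx00 : 0 < |(x0 : ℝ)| := by linarith
  have hp : 0 < (Z.card : ℝ) := by exact_mod_cast hZ.1.card_pos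
  have h3 := (h1 Z hZ).1 x0 hx0
  have h4 := hD Z hZ x0 hx0
  have h5 : (Z.card : ℝ) ≤ (C * D ^ γ) * (Z.card : ℝ) ^ (14 * γ) := by
    refine h3.trans ?_
    rw [mul_assoc]
    apply mul_le_mul_of_nonneg_left _ hC.le
    calc |(x0 : ℝ)| ^ γ ≤ (D * (Z.card : ℝ) ^ 14) ^ γ := Real.rpow_le_rpow hx00.le h4 hγ0.le
      _ = D ^ γ * (Z.card : ℝ) ^ (14 * γ) := by
          rw [Real.mul_rpow (by linarith) (by positivity), ← Real.rpow_natCast (Z.card : ℝ) 14,
            ← Real.rpow_mul hp.le]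
          norm_num
  have h6 : (Z.card : ℝ) ^ (1 - 14 * γ) ≤ C * D ^ γ := by
    rw [Real.rpow_sub hp, Real.rpow_one, div_le_iff₀ (by positivity)]
    exact h5
  have h7 := Real.rpow_le_rpow (by positivity) h6 (show 0 ≤ 1 / (1 - 14 * γ) by positivity)
  rwa [← Real.rpow_mul hp.le, mul_one_div_cancel he.ne', Real.rpow_one] at h7

/-- the number of cycles of bounded oscillation with at most `P` elements -/
theorem count_len (H : Par a b) {B γ : ℝ} (hB3 : (a : ℝ) ≤ B) (hB : Real.log B / Real.log a - 1 < γ)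
    (hγ : 1 < 14 * γ) (hel : ∃ D : ℝ, 1 ≤ D ∧ ∀ Z : Finset ℤ, Osc a b B Z → ∀ x ∈ Z,
      |(x : ℝ)| ≤ D * (Z.card : ℝ) ^ 14) :
    ∃ C : ℝ, 0 < C ∧ ∀ P : ℕ, 1 ≤ P → ∀ F : Finset (Finset ℤ),
      (∀ Z ∈ F, Osc a b B Z ∧ Z.card ≤ P) → (F.card : ℝ) ≤ C * (P : ℝ) ^ (14 * γ - 1) := by
  classical
  obtain ⟨C, hC, hcnt⟩ := count H hB3 hB
  obtain ⟨D, hD1, hD⟩ := hel
  have hγ0 : 0 < γ := by linarith
  set e : ℝ := 14 * γ - 1 with he
  have he0 : 0 < e := by rw [he]; linarith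
  set r : ℝ := 2 ^ e with hr
  have hr1 : 1 < r := Real.one_lt_rpow (by norm_num) he0
  set A : ℝ := C * D ^ γ * 2 ^ (14 * γ) with hA
  have hA0 : 0 < A := by positivity
  refine ⟨A * (r / (r - 1)), by have : 0 < r - 1 := by linarith
                                positivity, ?_⟩
  intro P hP F hF
  set G : ℕ → Finset (Finset ℤ) := fun j => F.filter fun Z => Nat.log 2 Z.card = j with hG
  have hGc : ∀ j : ℕ, ((G j).card : ℝ) ≤ A * r ^ j := by
    intro j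
    have hdisj : ((G j : Finset (Finset ℤ)) : Set (Finset ℤ)).PairwiseDisjoint id := by
      intro Z hZ Z' hZ' hne
      rw [Function.onFun, disjoint_left]
      intro y hy hy'
      have h1 := (mem_filter.1 (mem_coe.1 hZ)).1
      have h2 := (mem_filter.1 (mem_coe.1 hZ')).1
      exact hne ((hF Z h1).1.1.eq_of_mem (hF Z' h2).1.1 hy hy')
    have hlow : ∀ Z ∈ G j, (2 : ℝ) ^ j ≤ Z.card ∧ (Z.card : ℝ) ≤ 2 ^ (j + 1) := by
      intro Z hZ
      obtain ⟨hZF, hj⟩ := mem_filter.1 hZ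
      have hpos := (hF Z hZF).1.1.card_pos
      have h1 := Nat.pow_log_le_self 2 hpos.ne'
      have h2 := Nat.lt_pow_succ_log_self (b := 2) (by norm_num) Z.card
      rw [hj] at h1 h2
      exact ⟨by exact_mod_cast h1, by exact_mod_cast h2.le⟩
    have hX1 : (1 : ℝ) ≤ D * (2 ^ (j + 1)) ^ 14 := by
      have h1 : (1 : ℝ) ≤ (2 ^ (j + 1)) ^ 14 := one_le_pow₀ (one_le_pow₀ (by norm_num))
      nlinarith
    have h1 := hcnt _ hX1 ((G j).biUnion id) (by
      intro x hx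
      rw [mem_biUnion] at hx
      obtain ⟨Z, hZ, hxZ⟩ := hx
      have hZF := (mem_filter.1 hZ).1
      refine ⟨(hD Z (hF Z hZF).1 x hxZ).trans ?_, Z, (hF Z hZF).1, hxZ⟩
      apply mul_le_mul_of_nonneg_left _ (by linarith)
      exact pow_le_pow_left₀ (Nat.cast_nonneg _) (hlow Z hZ).2 14)
    rw [card_biUnion (fun Z hZ Z' hZ' hne => hdisj (mem_coe.2 hZ) (mem_coe.2 hZ') hne)] at h1
    have h2 : ((G j).card : ℝ) * 2 ^ j ≤ ((∑ Z ∈ G j, (id Z).card : ℕ) : ℝ) := by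
      push_cast
      rw [← nsmul_eq_mul, ← sum_const]
      exact sum_le_sum fun Z hZ => (hlow Z hZ).1
    have h3 : (D * (2 ^ (j + 1)) ^ 14) ^ γ = D ^ γ * (2 ^ (14 * γ) * (r ^ j * 2 ^ j)) := by
      rw [Real.mul_rpow (by linarith) (by positivity)]
      congr 1
      have h4 : (((2 : ℝ) ^ (j + 1)) ^ 14) ^ γ = 2 ^ (((j + 1 : ℕ) : ℝ) * 14 * γ) := by
        rw [← Real.rpow_natCast (2 : ℝ) (j + 1), ← Real.rpow_natCast _ 14,
          ← Real.rpow_mul (by positivity), ← Real.rpow_mul (by norm_num)]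
        congr 1
        push_cast
        ring
      have h5 : r ^ j * 2 ^ j = (2 : ℝ) ^ ((j : ℝ) * 14 * γ) := by
        rw [hr, ← Real.rpow_natCast, ← Real.rpow_natCast, ← Real.rpow_mul (by norm_num),
          ← Real.rpow_add (by norm_num), he]
        congr 1
        ring
      rw [h4, h5, ← Real.rpow_add (by norm_num)]
      congr 1
      push_cast
      ring
    rw [h3] at h1
    have h6 : ((G j).card : ℝ) * 2 ^ j ≤ (A * r ^ j) * 2 ^ j := by
      refine (h2.trans h1).trans (le_of_eq ?_)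
      rw [hA]; ring
    exact le_of_mul_le_mul_right h6 (by positivity)
  set J : ℕ := Nat.log 2 P with hJ
  have hcov : F ⊆ (range (J + 1)).biUnion G := by
    intro Z hZ
    rw [mem_biUnion]
    refine ⟨Nat.log 2 Z.card, ?_, mem_filter.2 ⟨hZ, rfl⟩⟩
    rw [mem_range]
    exact Nat.lt_succ_of_le (Nat.log_mono_right (hF Z hZ).2)
  have h1 : (F.card : ℝ) ≤ ∑ i ∈ range (J + 1), A * r ^ i := by
    have h2 : (F.card : ℝ) ≤ ((∑ i ∈ range (J + 1), (G i).card : ℕ) : ℝ) := by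
      exact_mod_cast (card_le_card hcov).trans card_biUnion_le
    refine h2.trans ?_
    push_cast
    exact sum_le_sum fun i _ => hGc i
  have h2 : r ^ J ≤ (P : ℝ) ^ e := by
    have h3 : (2 : ℝ) ^ J ≤ P := by
      have := Nat.pow_log_le_self 2 (show P ≠ 0 by omega)
      exact_mod_cast this
    calc r ^ J = ((2 : ℝ) ^ J) ^ e := by
          rw [hr, ← Real.rpow_natCast, ← Real.rpow_natCast, ← Real.rpow_mul (by norm_num),
            ← Real.rpow_mul (by norm_num), mul_comm]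
      _ ≤ (P : ℝ) ^ e := Real.rpow_le_rpow (by positivity) h3 he0.le
  have hr10 : 0 < r - 1 := by linarith
  calc (F.card : ℝ) ≤ ∑ i ∈ range (J + 1), A * r ^ i := h1
    _ = A * ((r ^ (J + 1) - 1) / (r - 1)) := by rw [← mul_sum, geom_sum_eq hr1.ne']
    _ ≤ A * (r * (P : ℝ) ^ e / (r - 1)) := by
        apply mul_le_mul_of_nonneg_left _ hA0.le
        apply div_le_div_of_nonneg_right _ hr10.le
        rw [pow_succ]
        nlinarith
    _ = A * (r / (r - 1)) * (P : ℝ) ^ e := by ring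

end Pool.Agent.TH926.OSG
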