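import Pool.Agent.TH926.OSG.Window

set_option autoImplicit false

/-!
Cycles of `T_{a,b}` with oscillation at most `B`.
-/

namespace Pool.Agent.TH926.OSG

open Finset Filter

variable {a b : ℤ}

/-- `Z` is a cycle other than `{0}` with oscillation at most `B`. -/
def Osc (a b : ℤ) (B : ℝ) (Z : Finset ℤ) : Prop :=
  IsCycle a b Z ∧ Z ≠ {0} ∧ ∀ x ∈ Z, ∀ y ∈ Z, |(x : ℝ)| ≤ B * |(y : ℝ)|

/-- the linear form -/
noncomputable def form (a : ℤ) (Z : Finset ℤ) : ℝ := (Z.card : ℝ) * Real.log 2 - odds Z * Real.log a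

lemma Osc.ne_zero {B : ℝ} {Z : Finset ℤ} (h : Osc a b B Z) {x : ℤ} (hx : x ∈ Z) : x ≠ 0 := by
  rintro rfl
  apply h.2.1
  rw [eq_singleton_iff_unique_mem]
  refine ⟨hx, fun y hy => ?_⟩
  have := h.2.2 y hy 0 hx
  simp only [Int.cast_zero, abs_zero, mul_zero] at this
  have h2 := abs_nonneg (y : ℝ)
  have h3 : (y : ℝ) = 0 := abs_eq_zero.1 (le_antisymm this h2)
  exact_mod_cast h3

/-- the least element -/
lemma Osc.min {B : ℝ} {Z : Finset ℤ} (h : Osc a b B Z) : ∃ x ∈ Z, 1 ≤ |(x : ℝ)| ∧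
    (∀ y ∈ Z, |x| ≤ |y|) ∧ ∀ y ∈ Z, |(x : ℝ)| ≤ |(y : ℝ)| ∧ |(y : ℝ)| ≤ B * |(x : ℝ)| := by
  obtain ⟨x1, hx1, -⟩ := h.1.normal
  obtain ⟨x0, hx0, hmin⟩ := exists_min_image Z (fun x => |x|) ⟨x1, hx1⟩
  refine ⟨x0, hx0, ?_, hmin, fun y hy => ⟨?_, h.2.2 y hy x0 hx0⟩⟩
  · have : (1 : ℤ) ≤ |x0| := Int.one_le_abs (h.ne_zero hx0)
    exact_mod_cast this
  · have := hmin y hy
    exact_mod_cast this

/-- few elements of cycles of bounded oscillation -/
theorem count (H : Par a b) {B γ : ℝ} (hB3 : (a : ℝ) ≤ B) (hB : Real.log B / Real.log a - 1 < γ) :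
    ∃ C : ℝ, 0 < C ∧ ∀ X : ℝ, 1 ≤ X → ∀ F : Finset ℤ,
      (∀ x ∈ F, |(x : ℝ)| ≤ X ∧ ∃ Z, Osc a b B Z ∧ x ∈ Z) → (F.card : ℝ) ≤ C * X ^ γ := by
  classical
  have hA := H.a_ge
  have hl3 : 0 < Real.log a := by have := H.log_pos; linarith
  have hB0 : 0 < B := by linarith
  have hγ0 : 0 < γ := gamma_pos H hB3 hB
  -- the ratio of the windows
  set g : ℝ := ((γ + 1) * Real.log a - Real.log B) / 2 with hg
  have hg0 : 0 < g := by
    have : Real.log B / Real.log a < γ + 1 := by linarith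
    rw [div_lt_iff₀ hl3] at this
    rw [hg]; linarith
  set s : ℝ := Real.exp g with hs
  have hs1 : 1 < s := by rw [hs]; exact Real.one_lt_exp_iff.2 hg0
  have hs0 : 0 < s := by linarith
  have hlogs : Real.log s = g := Real.log_exp g
  set B1 : ℝ := B * s with hB1
  have hB13 : (a : ℝ) ≤ B1 := by rw [hB1]; nlinarith
  have hB1' : Real.log B1 / Real.log a - 1 < γ := by
    have : Real.log B1 = Real.log B + g := by
      rw [hB1, Real.log_mul hB0.ne' hs0.ne', hlogs]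
    have h2 : Real.log B1 / Real.log a < γ + 1 := by
      rw [div_lt_iff₀ hl3, this, hg]
      rw [hg] at hg0
      linarith
    linarith
  obtain ⟨C1, hC1, hwin⟩ := window_bound H hB13 hB1'
  set r : ℝ := s ^ γ with hr
  have hr1 : 1 < r := Real.one_lt_rpow hs1 hγ0
  refine ⟨C1 * (r / (r - 1)), by have : 0 < r - 1 := by linarith
                                 positivity, ?_⟩
  intro X hX F hF
  -- the windows
  set U : ℕ → Finset ℤ := fun i => (Finset.Icc (-⌈B1 * s ^ i⌉) ⌈B1 * s ^ i⌉).filter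
    (fun x => ∃ Z, Osc a b B Z ∧ x ∈ Z ∧ (∀ y ∈ Z, s ^ i ≤ |(y : ℝ)|) ∧ ∃ y ∈ Z, |(y : ℝ)| < s ^ (i + 1))
    with hU
  have hbd : ∀ i : ℕ, ∀ Z : Finset ℤ, Osc a b B Z → (∃ y ∈ Z, |(y : ℝ)| < s ^ (i + 1)) → ∀ x ∈ Z,
      |(x : ℝ)| ≤ B1 * s ^ i := by
    rintro i Z hZ ⟨y, hy, hy2⟩ x hx
    refine (hZ.2.2 x hx y hy).trans ?_
    rw [hB1, mul_assoc, ← pow_succ']
    exact mul_le_mul_of_nonneg_left hy2.le hB0.le
  have hIcc : ∀ i : ℕ, ∀ x : ℤ, |(x : ℝ)| ≤ B1 * s ^ i →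
      x ∈ Finset.Icc (-⌈B1 * s ^ i⌉) ⌈B1 * s ^ i⌉ := by
    intro i x hx
    rw [Finset.mem_Icc, ← abs_le]
    have h1 : |(x : ℝ)| ≤ ((⌈B1 * s ^ i⌉ : ℤ) : ℝ) := hx.trans (Int.le_ceil _)
    exact_mod_cast h1
  have hUc : ∀ i : ℕ, ((U i).card : ℝ) ≤ C1 * r ^ i := by
    intro i
    have hsi : (1 : ℝ) ≤ s ^ i := one_le_pow₀ hs1.le
    have h1 := hwin (s ^ i) hsi (U i) (by
      intro x hx j
      rw [hU, mem_filter] at hx ⊢
      obtain ⟨-, Z, hZ, hxZ, h2, h3⟩ := hx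
      have h4 := hZ.1.closed hxZ j
      exact ⟨hIcc i _ (hbd i Z hZ h3 _ h4), Z, hZ, h4, h2, h3⟩) (by
      intro x hx
      rw [hU, mem_filter] at hx
      obtain ⟨-, Z, hZ, hxZ, h2, h3⟩ := hx
      exact ⟨h2 x hxZ, hbd i Z hZ h3 x hxZ⟩)
    have e : (s ^ i) ^ γ = r ^ i := by
      rw [hr, ← Real.rpow_natCast, ← Real.rpow_mul hs0.le, mul_comm, Real.rpow_mul hs0.le,
        Real.rpow_natCast]
    rwa [e] at h1
  set I : ℕ := ⌊Real.log X / g⌋₊ with hI
  have hcov : F ⊆ (range (I + 1)).biUnion U := by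
    intro x hx
    obtain ⟨hxX, Z, hZ, hxZ⟩ := hF x hx
    obtain ⟨m, hm, hm1, -, hm2⟩ := hZ.min
    have hm0 : 0 < |(m : ℝ)| := by linarith
    have hlm : 0 ≤ Real.log |(m : ℝ)| := Real.log_nonneg hm1
    set i : ℕ := ⌊Real.log |(m : ℝ)| / g⌋₊ with hi
    have hi1 : (i : ℝ) * g ≤ Real.log |(m : ℝ)| := by
      have := Nat.floor_le (div_nonneg hlm hg0.le)
      rwa [← hi, le_div_iff₀ hg0] at this
    have hi2 : Real.log |(m : ℝ)| < (i + 1) * g := by
      have := Nat.lt_floor_add_one (Real.log |(m : ℝ)| / g)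
      rwa [← hi, div_lt_iff₀ hg0] at this
    have e1 : ∀ j : ℕ, s ^ j = Real.exp (j * g) := by
      intro j
      rw [hs, ← Real.exp_nat_mul]
    have h3 : s ^ i ≤ |(m : ℝ)| := by
      rw [e1, ← Real.le_log_iff_exp_le hm0]; exact hi1
    have h4 : |(m : ℝ)| < s ^ (i + 1) := by
      rw [e1, ← Real.log_lt_iff_lt_exp hm0]; push_cast; exact hi2
    rw [mem_biUnion]
    refine ⟨i, ?_, ?_⟩
    · rw [mem_range]
      apply Nat.lt_succ_of_le
      rw [hI, hi]
      apply Nat.floor_le_floor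
      apply div_le_div_of_nonneg_right _ hg0.le
      exact Real.log_le_log hm0 ((hm2 x hxZ).1.trans hxX)
    · rw [hU, mem_filter]
      exact ⟨hIcc i x (hbd i Z hZ ⟨m, hm, h4⟩ x hxZ), Z, hZ, hxZ,
        fun y hy => h3.trans (hm2 y hy).1, m, hm, h4⟩
  have h1 : (F.card : ℝ) ≤ ∑ i ∈ range (I + 1), C1 * r ^ i := by
    have h2 : (F.card : ℝ) ≤ ((∑ i ∈ range (I + 1), (U i).card : ℕ) : ℝ) := by
      exact_mod_cast (card_le_card hcov).trans card_biUnion_le
    refine h2.trans ?_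
    push_cast
    exact sum_le_sum fun i _ => hUc i
  have h2 : r ^ I ≤ X ^ γ := by
    have h3 : (I : ℝ) * g ≤ Real.log X := by
      have := Nat.floor_le (div_nonneg (Real.log_nonneg hX) hg0.le)
      rwa [← hI, le_div_iff₀ hg0] at this
    have h4 : s ^ I ≤ X := by
      rw [hs, ← Real.exp_nat_mul, ← Real.le_log_iff_exp_le (by linarith)]
      exact h3
    calc r ^ I = (s ^ I) ^ γ := by
          rw [hr, ← Real.rpow_natCast (s ^ γ), ← Real.rpow_natCast s, ← Real.rpow_mul hs0.le,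
            ← Real.rpow_mul hs0.le, mul_comm]
      _ ≤ X ^ γ := Real.rpow_le_rpow (by positivity) h4 hγ0.le
  have hr10 : 0 < r - 1 := by linarith
  calc (F.card : ℝ) ≤ ∑ i ∈ range (I + 1), C1 * r ^ i := h1
    _ = C1 * ((r ^ (I + 1) - 1) / (r - 1)) := by rw [← mul_sum, geom_sum_eq hr1.ne']
    _ ≤ C1 * (r * X ^ γ / (r - 1)) := by
        apply mul_le_mul_of_nonneg_left _ hC1.le
        apply div_le_div_of_nonneg_right _ hr10.le
        rw [pow_succ]
        nlinarith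
    _ = C1 * (r / (r - 1)) * X ^ γ := by ring

/-- the form and the least element -/
theorem form_min (H : Par a b) {B : ℝ} {Z : Finset ℤ} (hZ : Osc a b B Z) {m : ℤ} (hm1 : 1 ≤ |(m : ℝ)|)
    (hm2 : ∀ y ∈ Z, |(m : ℝ)| ≤ |(y : ℝ)|) : |form a Z| ≤ cc a b * (Z.card / |(m : ℝ)|) := by
  have hm0 : 0 < |(m : ℝ)| := by linarith
  have hcc := H.cc_ge
  have h3 := hZ.1.form_le H (fun h => hZ.ne_zero h rfl)
  refine h3.trans (mul_le_mul_of_nonneg_left ?_ (by linarith))
  have h4 : ∑ x ∈ Z, 1 / |(x : ℝ)| ≤ ∑ x ∈ Z, 1 / |(m : ℝ)| :=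
    sum_le_sum fun x hx => one_div_le_one_div_of_le hm0 (hm2 x hx)
  rw [sum_const, nsmul_eq_mul, mul_one_div] at h4
  exact h4

/-- bounds for one cycle -/
theorem one (H : Par a b) {B γ : ℝ} (hB3 : (a : ℝ) ≤ B) (hB : Real.log B / Real.log a - 1 < γ) :
    ∃ C : ℝ, 0 < C ∧ ∀ Z : Finset ℤ, Osc a b B Z → (∀ x ∈ Z, (Z.card : ℝ) ≤ C * |(x : ℝ)| ^ γ) ∧
      (∃ x ∈ Z, 1 ≤ |(x : ℝ)| ∧ (∀ y ∈ Z, |(x : ℝ)| ≤ |(y : ℝ)|) ∧
        |form a Z| ≤ C * |(x : ℝ)| ^ (γ - 1)) ∧
      |form a Z| ≤ C * (Z.card : ℝ) ^ (1 - 1 / γ) := by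
  classical
  have hA := H.a_ge
  have hcc := H.cc_ge
  have hl3 : 0 < Real.log a := by have := H.log_pos; linarith
  have hγ0 : 0 < γ := gamma_pos H hB3 hB
  obtain ⟨C, hC, hwin⟩ := window_bound H hB3 hB
  set M : ℝ := max C (C ^ (1 / γ)) with hM
  have hM0 : 0 < M := lt_max_of_lt_left hC
  have hMle : M ≤ cc a b * M := by nlinarith
  refine ⟨cc a b * M, by positivity, ?_⟩
  intro Z hZ
  obtain ⟨m, hm, hm1, -, hm2⟩ := hZ.min
  have hm0 : 0 < |(m : ℝ)| := by linarith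
  have h1 := hwin |(m : ℝ)| hm1 Z (fun x hx j => hZ.1.closed hx j) hm2
  have hp : 0 < (Z.card : ℝ) := by exact_mod_cast hZ.1.card_pos
  have h2 : |form a Z| ≤ cc a b * (Z.card / |(m : ℝ)|) := form_min H hZ hm1 fun y hy => (hm2 y hy).1
  refine ⟨?_, ⟨m, hm, hm1, fun y hy => (hm2 y hy).1, ?_⟩, ?_⟩
  · intro x hx
    refine h1.trans ?_
    apply mul_le_mul ((le_max_left _ _).trans hMle) _ (by positivity) (by positivity)
    exact Real.rpow_le_rpow hm0.le (hm2 x hx).1 hγ0.le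
  · refine h2.trans ?_
    rw [Real.rpow_sub_one hm0.ne', mul_assoc]
    apply mul_le_mul_of_nonneg_left _ (by linarith)
    calc (Z.card : ℝ) / |(m : ℝ)| ≤ (C * |(m : ℝ)| ^ γ) / |(m : ℝ)| :=
          div_le_div_of_nonneg_right h1 hm0.le
      _ = C * (|(m : ℝ)| ^ γ / |(m : ℝ)|) := by ring
      _ ≤ _ := mul_le_mul_of_nonneg_right (le_max_left _ _) (by positivity)
  · -- `m ≥ (p / C) ^ (1 / γ)`
    have h3 : ((Z.card : ℝ) / C) ^ (1 / γ) ≤ |(m : ℝ)| := by
      have h4 : (Z.card : ℝ) / C ≤ |(m : ℝ)| ^ γ := by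
        rw [div_le_iff₀ hC]; linarith
      have h5 := Real.rpow_le_rpow (by positivity) h4 (show 0 ≤ 1 / γ by positivity)
      rwa [← Real.rpow_mul hm0.le, mul_one_div_cancel hγ0.ne', Real.rpow_one] at h5
    have h6 : 0 < ((Z.card : ℝ) / C) ^ (1 / γ) := by positivity
    refine h2.trans ?_
    rw [mul_assoc]
    apply mul_le_mul_of_nonneg_left _ (by linarith)
    calc (Z.card : ℝ) / |(m : ℝ)| ≤ (Z.card : ℝ) / ((Z.card : ℝ) / C) ^ (1 / γ) :=
          div_le_div_of_nonneg_left hp.le h6 h3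
      _ = C ^ (1 / γ) * (Z.card : ℝ) ^ (1 - 1 / γ) := by
          rw [Real.div_rpow hp.le hC.le, Real.rpow_sub hp, Real.rpow_one]
          have : 0 < C ^ (1 / γ) := by positivity
          have : 0 < (Z.card : ℝ) ^ (1 / γ) := by positivity
          field_simp
      _ ≤ _ := mul_le_mul_of_nonneg_right (le_max_right _ _) (by positivity)

/-- the form is bounded below for bounded lengths -/
theorem form_lower (H : Par a b) (P : ℕ) : ∃ c : ℝ, 0 < c ∧ ∀ p o : ℕ, 1 ≤ p → p ≤ P → o ≤ p →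
    c ≤ |(p : ℝ) * Real.log 2 - o * Real.log a| := by
  classical
  have hl3 : 0 < Real.log a := by have := H.log_pos; linarith
  set S : Finset (ℕ × ℕ) := (Finset.Icc 1 (P + 1)) ×ˢ (range (P + 2)) with hS
  have hne : S.Nonempty := ⟨(1, 0), by rw [hS, mem_product, Finset.mem_Icc, mem_range]; simp⟩
  refine ⟨S.inf' hne fun u => |(u.1 : ℝ) * Real.log 2 - u.2 * Real.log a|, ?_, ?_⟩
  · rw [Finset.lt_inf'_iff]
    intro u hu
    rw [hS, mem_product, Finset.mem_Icc] at hu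
    rw [abs_pos]
    intro h0
    apply irrational H
    refine ⟨(u.2 : ℚ) / u.1, ?_⟩
    have hu1 : (0 : ℝ) < u.1 := by exact_mod_cast hu.1.1
    push_cast
    rw [div_eq_div_iff hu1.ne' hl3.ne']
    linarith
  · intro p o hp hpP ho
    apply Finset.inf'_le (f := fun u : ℕ × ℕ => |(u.1 : ℝ) * Real.log 2 - u.2 * Real.log a|)
      (b := (p, o))
    rw [hS, mem_product, Finset.mem_Icc, mem_range]
    simp only
    omega

theorem odds_le (Z : Finset ℤ) : odds Z ≤ Z.card := card_filter_le _ _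

/-- finitely many cycles of bounded oscillation and bounded length -/
theorem finite_card (H : Par a b) (B : ℝ) (hB3 : (a : ℝ) ≤ B) (P : ℝ) :
    {Z : Finset ℤ | Osc a b B Z ∧ (Z.card : ℝ) ≤ P}.Finite := by
  classical
  have hA := H.a_ge
  have hcc := H.cc_ge
  obtain ⟨c, hc, hlow⟩ := form_lower H ⌊P⌋₊
  set L : ℤ := ⌈B * (cc a b * |P| / c)⌉ with hL
  apply Set.Finite.subset (Finset.finite_toSet ((Finset.Icc (-L) L).powerset))
  rintro Z ⟨hZ, hP⟩
  rw [mem_coe, mem_powerset]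
  obtain ⟨x0, hx0, h1, hmin, hx0r⟩ := hZ.min
  have hx00 : 0 < |(x0 : ℝ)| := by linarith
  have h2 := form_min H hZ h1 fun y hy => (hx0r y hy).1
  have h3 := hlow Z.card (odds Z) hZ.1.card_pos (Nat.le_floor hP) (odds_le Z)
  have h4 : c ≤ cc a b * (Z.card / |(x0 : ℝ)|) := h3.trans h2
  have h5 : |(x0 : ℝ)| ≤ cc a b * |P| / c := by
    rw [le_div_iff₀ hc]
    rw [mul_div_assoc', le_div_iff₀ hx00] at h4
    have h6 : cc a b * (Z.card : ℝ) ≤ cc a b * |P| :=
      mul_le_mul_of_nonneg_left (hP.trans (le_abs_self P)) (by linarith)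
    linarith
  intro x hx
  rw [Finset.mem_Icc, ← abs_le]
  have h6 : |(x : ℝ)| ≤ L := by
    refine ((hx0r x hx).2.trans (mul_le_mul_of_nonneg_left h5 (by linarith))).trans ?_
    rw [hL]
    exact Int.le_ceil _
  exact_mod_cast h6

/-- `t log a = log B - log a`, `κ t < 1`: the form is at most `p ^ (1 - κ)` with finitely many
exceptions -/
theorem finite_form (H : Par a b) {B κ : ℝ} (hB3 : (a : ℝ) ≤ B) (hκ : κ * (Real.log B / Real.log a - 1) < 1) :
    {Z : Finset ℤ | Osc a b B Z ∧ (Z.card : ℝ) ^ (1 - κ) < |form a Z|}.Finite := by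
  have hA := H.a_ge
  have hl3 : 0 < Real.log a := by have := H.log_pos; linarith
  set t : ℝ := Real.log B / Real.log a - 1 with ht
  have ht0 : 0 ≤ t := by
    have h1 := Real.log_le_log (by linarith : (0 : ℝ) < a) hB3
    have h2 : 1 ≤ Real.log B / Real.log a := by rwa [le_div_iff₀ hl3, one_mul]
    rw [ht]; linarith
  -- an exponent
  obtain ⟨γ, hγt, hγκ⟩ : ∃ γ : ℝ, t < γ ∧ κ * γ < 1 := by
    rcases le_or_gt κ 0 with h | h
    · exact ⟨t + 1, by linarith, by nlinarith⟩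
    · refine ⟨(t + 1 / κ) / 2, ?_, ?_⟩
      · have : t < 1 / κ := by rw [lt_div_iff₀ h]; linarith
        linarith
      · have : κ * ((t + 1 / κ) / 2) = (κ * t + 1) / 2 := by field_simp
        rw [this]; linarith
  have hγ0 : 0 < γ := by linarith
  obtain ⟨C, hC, h1⟩ := one H hB3 hγt
  have he : 0 < 1 / γ - κ := by
    rw [sub_pos, lt_div_iff₀ hγ0]; linarith
  apply Set.Finite.subset (finite_card H B hB3 (C ^ (1 / (1 / γ - κ))))
  rintro Z ⟨hZ, hlt⟩
  refine ⟨hZ, ?_⟩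
  have hp : 0 < (Z.card : ℝ) := by exact_mod_cast hZ.1.card_pos
  have h2 := hlt.trans_le (h1 Z hZ).2.2
  have h3 : (Z.card : ℝ) ^ (1 / γ - κ) ≤ C := by
    have e : (Z.card : ℝ) ^ (1 - κ) = (Z.card : ℝ) ^ (1 / γ - κ) * (Z.card : ℝ) ^ (1 - 1 / γ) := by
      rw [← Real.rpow_add hp]; congr 1; ring
    rw [e] at h2
    exact le_of_lt (lt_of_mul_lt_mul_right h2 (by positivity))
  have h5 := Real.rpow_le_rpow (by positivity) h3 (show 0 ≤ 1 / (1 / γ - κ) by positivity)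
  rwa [← Real.rpow_mul hp.le, mul_one_div_cancel he.ne', Real.rpow_one] at h5

/-- few cycles with a large form -/
theorem count_form (H : Par a b) {B γ : ℝ} (hB3 : (a : ℝ) ≤ B) (hB : Real.log B / Real.log a - 1 < γ) (hγ1 : γ < 1) :
    ∃ C : ℝ, 0 < C ∧ ∀ lam : ℝ, 0 < lam → ∀ F : Finset (Finset ℤ),
      (∀ Z ∈ F, Osc a b B Z ∧ lam ≤ |form a Z|) → (F.card : ℝ) ≤ C * lam ^ (-(γ / (1 - γ))) := by
  classical
  have hA := H.a_ge
  have hl3 : 0 < Real.log a := by have := H.log_pos; linarith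
  have hγ0 : 0 < γ := gamma_pos H hB3 hB
  have hd : 0 < 1 - γ := by linarith
  obtain ⟨C1, hC1, h1⟩ := one H hB3 hB
  obtain ⟨C2, hC2, h2⟩ := count H hB3 hB
  refine ⟨C2 * C1 ^ (γ / (1 - γ)), by positivity, ?_⟩
  intro lam hlam F hF
  have hch : ∀ Z ∈ F, ∃ x ∈ Z, 1 ≤ |(x : ℝ)| ∧ |form a Z| ≤ C1 * |(x : ℝ)| ^ (γ - 1) := by
    intro Z hZ
    obtain ⟨x, hx, h3, -, h4⟩ := (h1 Z (hF Z hZ).1).2.1
    exact ⟨x, hx, h3, h4⟩
  choose! f hf hf1 hf2 using hch
  have hinj : Set.InjOn f F := by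
    intro Z hZ Z' hZ' h
    exact (hF Z hZ).1.1.eq_of_mem (hF Z' hZ').1.1 (hf Z hZ) (h ▸ hf Z' hZ')
  rcases F.eq_empty_or_nonempty with rfl | ⟨Z0, hZ0⟩
  · simp; positivity
  set X : ℝ := (C1 / lam) ^ (1 / (1 - γ)) with hX
  have hbound : ∀ Z ∈ F, |(f Z : ℝ)| ≤ X := by
    intro Z hZ
    have h3 := (hF Z hZ).2.trans (hf2 Z hZ)
    have hx0 : 0 < |(f Z : ℝ)| := by have := hf1 Z hZ; linarith
    have h4 : |(f Z : ℝ)| ^ (1 - γ) ≤ C1 / lam := by
      rw [le_div_iff₀ hlam]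
      have e : |(f Z : ℝ)| ^ (γ - 1) = (|(f Z : ℝ)| ^ (1 - γ))⁻¹ := by
        rw [← Real.rpow_neg hx0.le]; congr 1; ring
      rw [e, ← div_eq_mul_inv, le_div_iff₀ (by positivity)] at h3
      linarith
    have h5 := Real.rpow_le_rpow (by positivity) h4 (show 0 ≤ 1 / (1 - γ) by positivity)
    rwa [← Real.rpow_mul hx0.le, mul_one_div_cancel hd.ne', Real.rpow_one] at h5
  have hX1 : 1 ≤ X := (hf1 Z0 hZ0).trans (hbound Z0 hZ0)
  have h3 := h2 X hX1 (F.image f) (by
    intro x hx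
    rw [mem_image] at hx
    obtain ⟨Z, hZ, rfl⟩ := hx
    exact ⟨hbound Z hZ, Z, (hF Z hZ).1, hf Z hZ⟩)
  rw [card_image_of_injOn hinj] at h3
  refine h3.trans (le_of_eq ?_)
  have e1 : X ^ γ = (C1 / lam) ^ (γ / (1 - γ)) := by
    rw [hX, ← Real.rpow_mul (by positivity)]
    congr 1
    field_simp
  rw [e1, Real.div_rpow hC1.le hlam.le, Real.rpow_neg hlam.le]
  ring

/-- the ratio -/
def ratio (Z : Finset ℤ) : ℚ := (odds Z : ℚ) / Z.card

lemma ratio_dist (H : Par a b) {B : ℝ} {Z : Finset ℤ} (hZ : Osc a b B Z) :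
    |Real.log 2 / Real.log a - (ratio Z : ℝ)| = |form a Z| / (Z.card * Real.log a) := by
  have hA := H.a_ge
  have hl3 : 0 < Real.log a := by have := H.log_pos; linarith
  have hp : 0 < (Z.card : ℝ) := by exact_mod_cast hZ.1.card_pos
  have e : Real.log 2 / Real.log a - (ratio Z : ℝ) = form a Z / (Z.card * Real.log a) := by
    unfold ratio form
    push_cast
    field_simp
  rw [e, abs_div, abs_of_pos (by positivity : 0 < (Z.card : ℝ) * Real.log a)]

lemma log3_gt : 1 < Real.log 3 := Pool.Agent.H319R2.log3_gt_one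

/-- if the form is small then the ratio is a convergent -/
lemma convergent_of (H : Par a b) {B κ : ℝ} {Z : Finset ℤ} (hZ : Osc a b B Z) (h : |form a Z| ≤ (Z.card : ℝ) ^ (1 - κ))
    (hp : 2 < (Z.card : ℝ) ^ (κ - 2)) : ∃ n, ratio Z = (Real.log 2 / Real.log a).convergent n := by
  have hl3 := H.log_pos
  have hp0 : 0 < (Z.card : ℝ) := by exact_mod_cast hZ.1.card_pos
  apply Real.exists_rat_eq_convergent
  rw [ratio_dist H hZ]
  have hden : ((ratio Z).den : ℝ) ≤ Z.card := by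
    have h1 : ((ratio Z).den : ℤ) ∣ (Z.card : ℤ) := by
      have h := Rat.den_dvd (odds Z : ℤ) (Z.card : ℤ)
      have e : ratio Z = Rat.divInt (odds Z : ℤ) (Z.card : ℤ) := by
        rw [Rat.divInt_eq_div]; unfold ratio; push_cast; rfl
      rw [e]; exact h
    have h2 : (ratio Z).den ∣ Z.card := by exact_mod_cast h1
    exact_mod_cast Nat.le_of_dvd hZ.1.card_pos h2
  have hden0 : 0 < ((ratio Z).den : ℝ) := by exact_mod_cast (ratio Z).den_pos
  have h3 : |form a Z| / (Z.card * Real.log a) < 1 / (2 * (Z.card : ℝ) ^ 2) := by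
    rw [div_lt_div_iff₀ (by positivity) (by positivity)]
    have e : (Z.card : ℝ) ^ (1 - κ) * (Z.card : ℝ) ^ (κ - 2) * (Z.card : ℝ) = 1 := by
      rw [← Real.rpow_add hp0, ← Real.rpow_add_one hp0.ne']
      have : (1 - κ + (κ - 2) + 1 : ℝ) = 0 := by ring
      rw [this, Real.rpow_zero]
    have h4 : 0 < (Z.card : ℝ) ^ (1 - κ) := by positivity
    have h5 : |form a Z| * 2 * Z.card < 1 := by
      calc |form a Z| * 2 * Z.card ≤ (Z.card : ℝ) ^ (1 - κ) * 2 * Z.card := by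
            apply mul_le_mul_of_nonneg_right _ hp0.le
            apply mul_le_mul_of_nonneg_right h (by norm_num)
        _ < (Z.card : ℝ) ^ (1 - κ) * (Z.card : ℝ) ^ (κ - 2) * Z.card := by
            apply mul_lt_mul_of_pos_right _ hp0
            apply mul_lt_mul_of_pos_left hp h4
        _ = 1 := e
    calc |form a Z| * (2 * (Z.card : ℝ) ^ 2) = (|form a Z| * 2 * Z.card) * Z.card := by ring
      _ < 1 * Z.card := mul_lt_mul_of_pos_right h5 hp0
      _ ≤ 1 * (Z.card * Real.log a) := by nlinarith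
  refine h3.trans_le ?_
  apply one_div_le_one_div_of_le (by positivity)
  nlinarith

lemma exists_kappa (H : Par a b) {B : ℝ} (hB3 : (a : ℝ) ≤ B) (hB : B < (a : ℝ) ^ (3 / 2 : ℝ)) :
    ∃ κ : ℝ, 2 < κ ∧ κ * (Real.log B / Real.log a - 1) < 1 := by
  have hA := H.a_ge
  have hl3 : 0 < Real.log a := by have := H.log_pos; linarith
  set t : ℝ := Real.log B / Real.log a - 1 with ht
  have ht2 : t < 1 / 2 := by
    have h1 := Real.log_lt_log (by linarith) hB
    rw [Real.log_rpow (by linarith)] at h1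
    have h2 : Real.log B / Real.log a < 3 / 2 := by rwa [div_lt_iff₀ hl3]
    rw [ht]; linarith
  exact ⟨3 - 2 * t, by linarith, by nlinarith⟩

/-- the ratio is a convergent -/
theorem finite_convergent (H : Par a b) {B : ℝ} (hB3 : (a : ℝ) ≤ B) (hB : B < (a : ℝ) ^ (3 / 2 : ℝ)) :
    {Z : Finset ℤ | Osc a b B Z ∧ ∀ n, ratio Z ≠ (Real.log 2 / Real.log a).convergent n}.Finite := by
  obtain ⟨κ, hκ2, hκ⟩ := exists_kappa H hB3 hB
  have he : 0 < κ - 2 := by linarith
  apply Set.Finite.subset ((finite_form H hB3 hκ).union (finite_card H B hB3 (2 ^ (1 / (κ - 2)))))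
  rintro Z ⟨hZ, hn⟩
  by_cases h1 : (Z.card : ℝ) ^ (1 - κ) < |form a Z|
  · exact Or.inl ⟨hZ, h1⟩
  · right
    refine ⟨hZ, ?_⟩
    by_contra hcon
    push Not at h1 hcon
    have hp : 0 < (Z.card : ℝ) := by exact_mod_cast hZ.1.card_pos
    have h2 : 2 < (Z.card : ℝ) ^ (κ - 2) := by
      have h3 := Real.rpow_lt_rpow (by positivity) hcon he
      rwa [← Real.rpow_mul (by norm_num), one_div_mul_cancel he.ne', Real.rpow_one] at h3
    obtain ⟨n, hn'⟩ := convergent_of H hZ h1 h2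
    exact hn n hn'

/-- the gap principle -/
lemma gap (H : Par a b) {B κ : ℝ} (hκ : 0 ≤ κ) {Z Z' : Finset ℤ} (hZ : Osc a b B Z) (hZ' : Osc a b B Z')
    (h : |form a Z| ≤ (Z.card : ℝ) ^ (1 - κ)) (h' : |form a Z'| ≤ (Z'.card : ℝ) ^ (1 - κ))
    (hne : ratio Z ≠ ratio Z') (hle : Z.card ≤ Z'.card) :
    (Z.card : ℝ) ^ (κ - 1) ≤ 2 * Z'.card := by
  have hl3 := H.log_pos
  have hp : 0 < (Z.card : ℝ) := by exact_mod_cast hZ.1.card_pos
  have hp' : 0 < (Z'.card : ℝ) := by exact_mod_cast hZ'.1.card_pos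
  have hler : (Z.card : ℝ) ≤ Z'.card := by exact_mod_cast hle
  have key : ∀ {W : Finset ℤ}, Osc a b B W → |form a W| ≤ (W.card : ℝ) ^ (1 - κ) →
      |Real.log 2 / Real.log a - (ratio W : ℝ)| ≤ (W.card : ℝ) ^ (-κ) := by
    intro W hW hf
    have hpW : 0 < (W.card : ℝ) := by exact_mod_cast hW.1.card_pos
    rw [ratio_dist H hW, div_le_iff₀ (by positivity)]
    have e : (W.card : ℝ) ^ (1 - κ) = (W.card : ℝ) ^ (-κ) * W.card := by
      rw [← Real.rpow_add_one hpW.ne']; congr 1; ring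
    rw [e] at hf
    refine hf.trans ?_
    have : 0 ≤ (W.card : ℝ) ^ (-κ) * W.card := by positivity
    nlinarith
  have h1 := key hZ h
  have h2 := key hZ' h'
  have h3 : (Z'.card : ℝ) ^ (-κ) ≤ (Z.card : ℝ) ^ (-κ) := by
    apply Real.rpow_le_rpow_of_nonpos hp hler (by linarith)
  have h4 : |(ratio Z : ℝ) - ratio Z'| ≤ 2 * (Z.card : ℝ) ^ (-κ) := by
    have e : (ratio Z : ℝ) - ratio Z' = (Real.log 2 / Real.log a - ratio Z') -
        (Real.log 2 / Real.log a - ratio Z) := by ring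
    rw [e]
    refine (abs_sub _ _).trans ?_
    linarith
  have h5 : 1 / ((Z.card : ℝ) * Z'.card) ≤ |(ratio Z : ℝ) - ratio Z'| := by
    have e : (ratio Z : ℝ) - ratio Z' =
        (((odds Z : ℤ) * Z'.card - (odds Z' : ℤ) * Z.card : ℤ) : ℝ) / ((Z.card : ℝ) * Z'.card) := by
      unfold ratio
      push_cast
      field_simp
    rw [e, abs_div, abs_of_pos (by positivity : 0 < (Z.card : ℝ) * Z'.card)]
    apply div_le_div_of_nonneg_right _ (by positivity)
    have h6 : ((odds Z : ℤ) * Z'.card - (odds Z' : ℤ) * Z.card : ℤ) ≠ 0 := by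
      intro h0
      apply hne
      have h7 : (ratio Z : ℝ) - ratio Z' = 0 := by rw [e, h0]; simp
      have h8 : (ratio Z : ℝ) = ratio Z' := by linarith
      exact_mod_cast h8
    have h7 := Int.one_le_abs h6
    exact_mod_cast h7
  have h6 : 1 ≤ 2 * (Z.card : ℝ) ^ (-κ) * ((Z.card : ℝ) * Z'.card) := by
    have := h5.trans h4
    rwa [div_le_iff₀ (by positivity)] at this
  have e2 : (Z.card : ℝ) ^ (κ - 1) * ((Z.card : ℝ) ^ (-κ) * Z.card) = 1 := by
    rw [← Real.rpow_add_one hp.ne', ← Real.rpow_add hp]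
    have : (κ - 1 + (-κ + 1) : ℝ) = 0 := by ring
    rw [this, Real.rpow_zero]
  have h7 : 0 < (Z.card : ℝ) ^ (κ - 1) := by positivity
  calc (Z.card : ℝ) ^ (κ - 1) = (Z.card : ℝ) ^ (κ - 1) * 1 := (mul_one _).symm
    _ ≤ (Z.card : ℝ) ^ (κ - 1) * (2 * (Z.card : ℝ) ^ (-κ) * ((Z.card : ℝ) * Z'.card)) :=
        mul_le_mul_of_nonneg_left h6 h7.le
    _ = 2 * Z'.card * ((Z.card : ℝ) ^ (κ - 1) * ((Z.card : ℝ) ^ (-κ) * Z.card)) := by ring
    _ = 2 * Z'.card := by rw [e2, mul_one]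

/-- few ratios -/
theorem few_ratios (H : Par a b) {B : ℝ} (hB3 : (a : ℝ) ≤ B) (hB : B < (a : ℝ) ^ (3 / 2 : ℝ)) :
    ∃ C : ℝ, 0 < C ∧ ∀ P : ℕ, 3 ≤ P → ∀ R : Finset ℚ,
      (∀ r ∈ R, ∃ Z, Osc a b B Z ∧ Z.card ≤ P ∧ r = ratio Z) →
      (R.card : ℝ) ≤ C * (1 + Real.log (Real.log P)) := by
  classical
  obtain ⟨κ, hκ2, hκ⟩ := exists_kappa H hB3 hB
  set σ : ℝ := κ / 2 with hσ
  have hσ1 : 1 < σ := by rw [hσ]; linarith
  have hσ0 : 0 < Real.log σ := Real.log_pos hσ1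
  have he : 0 < κ / 2 - 1 := by linarith
  set P1 : ℝ := max 3 (2 ^ (1 / (κ / 2 - 1))) with hP1
  -- the exceptions
  have hfin := (finite_form H hB3 hκ).union (finite_card H B hB3 P1)
  set E : Finset (Finset ℤ) := hfin.toFinset with hE
  refine ⟨E.card + 1 + 1 / Real.log σ, by positivity, ?_⟩
  intro P hP R hR
  have hPr : (3 : ℝ) ≤ P := by exact_mod_cast hP
  have hlogP : 1 < Real.log P := by
    have := Real.log_le_log (by norm_num : (0 : ℝ) < 3) hPr
    have := log3_gt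
    linarith
  have hllP : 0 < Real.log (Real.log P) := Real.log_pos hlogP
  choose! z hz1 hz2 hz3 using hR
  set R1 := R.filter fun r => z r ∈ E with hR1
  set R2 := R.filter fun r => ¬ z r ∈ E with hR2
  have hsplit : R1.card + R2.card = R.card := by
    rw [hR1, hR2]; exact card_filter_add_card_filter_not (s := R) _
  have hzinj : Set.InjOn z R := by
    intro r hr r' hr' h
    rw [hz3 r hr, hz3 r' hr', h]
  have h1 : R1.card ≤ E.card := by
    apply card_le_card_of_injOn z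
    · intro r hr
      exact (mem_filter.1 hr).2
    · intro r hr r' hr' h
      exact hzinj (mem_filter.1 hr).1 (mem_filter.1 hr').1 h
  -- the other ones
  have hgood : ∀ r ∈ R2, Osc a b B (z r) ∧ |form a (z r)| ≤ ((z r).card : ℝ) ^ (1 - κ) ∧
      P1 < (z r).card ∧ ((z r).card : ℝ) ≤ P ∧ r = ratio (z r) := by
    intro r hr
    obtain ⟨hrR, hrE⟩ := mem_filter.1 hr
    have ho := hz1 r hrR
    rw [hE, Set.Finite.mem_toFinset] at hrE
    simp only [Set.mem_union, Set.mem_ofPred_eq, not_or, not_and] at hrE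
    refine ⟨ho, ?_, ?_, ?_, hz3 r hrR⟩
    · exact not_lt.1 (hrE.1 ho)
    · exact not_le.1 (hrE.2 ho)
    · exact_mod_cast hz2 r hrR
  set v : ℚ → ℕ := fun r => ⌊Real.log (Real.log (z r).card) / Real.log σ⌋₊ with hv
  have hstep : ∀ r ∈ R2, ∀ r' ∈ R2, r ≠ r' → (z r).card ≤ (z r').card → v r < v r' := by
    intro r hr r' hr' hne hle
    obtain ⟨a1, a2, a3, -, a5⟩ := hgood r hr
    obtain ⟨b1, b2, b3, -, b5⟩ := hgood r' hr'
    have hne' : ratio (z r) ≠ ratio (z r') := by rw [← a5, ← b5]; exact hne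
    have h2 := gap H (by linarith) a1 b1 a2 b2 hne' hle
    have hp3 : 3 < ((z r).card : ℝ) := (le_max_left _ _).trans_lt a3
    have hp : 0 < ((z r).card : ℝ) := by linarith
    have hp' : 3 < ((z r').card : ℝ) := (le_max_left _ _).trans_lt b3
    have h3 : 2 < ((z r).card : ℝ) ^ (κ / 2 - 1) := by
      have h4 : (2 : ℝ) ^ (1 / (κ / 2 - 1)) < (z r).card := (le_max_right _ _).trans_lt a3
      have h5 := Real.rpow_lt_rpow (by positivity) h4 he
      rwa [← Real.rpow_mul (by norm_num), one_div_mul_cancel he.ne', Real.rpow_one] at h5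
    have h4 : ((z r).card : ℝ) ^ σ < (z r').card := by
      have e : ((z r).card : ℝ) ^ (κ - 1) = ((z r).card : ℝ) ^ σ * ((z r).card : ℝ) ^ (κ / 2 - 1) := by
        rw [← Real.rpow_add hp]; congr 1; rw [hσ]; ring
      rw [e] at h2
      have h5 : 0 < ((z r).card : ℝ) ^ σ := Real.rpow_pos_of_pos hp _
      nlinarith
    have hl : 1 < Real.log (z r).card := by
      have := Real.log_lt_log (by norm_num : (0 : ℝ) < 3) hp3
      have := log3_gt
      linarith
    have h5 : σ * Real.log (z r).card < Real.log (z r').card := by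
      rw [← Real.log_rpow hp]
      exact Real.log_lt_log (Real.rpow_pos_of_pos hp _) h4
    have h6 : Real.log σ + Real.log (Real.log (z r).card) < Real.log (Real.log (z r').card) := by
      have hσp : 0 < σ := by linarith
      rw [← Real.log_mul hσp.ne' (by linarith)]
      exact Real.log_lt_log (mul_pos hσp (by linarith)) h5
    have h7 : Real.log (Real.log (z r).card) / Real.log σ + 1 <
        Real.log (Real.log (z r').card) / Real.log σ := by
      rw [← sub_pos]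
      have : Real.log (Real.log (z r').card) / Real.log σ -
          (Real.log (Real.log (z r).card) / Real.log σ + 1) =
          (Real.log (Real.log (z r').card) - (Real.log σ + Real.log (Real.log (z r).card))) /
            Real.log σ := by field_simp; ring
      rw [this]
      exact div_pos (by linarith) hσ0
    have h8 : 0 ≤ Real.log (Real.log (z r).card) / Real.log σ :=
      div_nonneg (Real.log_nonneg hl.le) hσ0.le
    have h9 : ⌊Real.log (Real.log (z r).card) / Real.log σ⌋₊ + 1 ≤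
        ⌊Real.log (Real.log (z r').card) / Real.log σ⌋₊ := by
      rw [← Nat.floor_add_one h8]
      exact Nat.floor_le_floor h7.le
    exact h9
  have h2 : R2.card ≤ (range (⌊Real.log (Real.log P) / Real.log σ⌋₊ + 1)).card := by
    apply card_le_card_of_injOn v
    · intro r hr
      have hr : r ∈ R2 := hr
      obtain ⟨a1, a2, a3, a4, a5⟩ := hgood r hr
      have hp3 : 3 < ((z r).card : ℝ) := (le_max_left _ _).trans_lt a3
      have hl : 1 < Real.log (z r).card := by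
        have := Real.log_lt_log (by norm_num : (0 : ℝ) < 3) hp3
        have := log3_gt
        linarith
      rw [mem_coe, mem_range]
      apply Nat.lt_succ_of_le
      apply Nat.floor_le_floor
      apply div_le_div_of_nonneg_right _ hσ0.le
      apply Real.log_le_log (by linarith)
      exact Real.log_le_log (by linarith) a4
    · intro r hr r' hr' h
      have hr : r ∈ R2 := hr
      have hr' : r' ∈ R2 := hr'
      by_contra hne
      rcases le_total (z r).card (z r').card with hle | hle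
      · have := hstep r hr r' hr' hne hle
        omega
      · have := hstep r' hr' r hr (Ne.symm hne) hle
        omega
  rw [card_range] at h2
  have h3 : (R.card : ℝ) ≤ E.card + (Real.log (Real.log P) / Real.log σ + 1) := by
    have h4 : (R.card : ℝ) = R1.card + R2.card := by exact_mod_cast hsplit.symm
    have h5 : (R1.card : ℝ) ≤ E.card := by exact_mod_cast h1
    have h6 : (R2.card : ℝ) ≤ ⌊Real.log (Real.log P) / Real.log σ⌋₊ + 1 := by exact_mod_cast h2
    have h7 := Nat.floor_le (div_nonneg hllP.le hσ0.le)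
    linarith
  refine h3.trans ?_
  have h4 : 0 ≤ (E.card : ℝ) * Real.log (Real.log P) := by positivity
  have h5 : 0 < 1 / Real.log σ := by positivity
  have e : Real.log (Real.log P) / Real.log σ = 1 / Real.log σ * Real.log (Real.log P) := by ring
  rw [e]
  nlinarith

end Pool.Agent.TH926.OSG
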